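import Mathlib

/-! PP5 (b): a primitive linear form on Z^4 becomes the last coordinate in a suitable basis. -/

namespace Pool.Agent.PP5B

open Matrix

theorem gcd_dec (x y : ℤ) : ∃ g a b α β : ℤ, x = g * a ∧ y = g * b ∧ α * a + β * b = 1 := by
  by_cases h : x = 0 ∧ y = 0
  · exact ⟨0, 1, 0, 1, 0, by simp [h.1], by simp [h.2], by ring⟩
  · have hg : (Int.gcd x y : ℤ) ≠ 0 := by
      intro h0
      have : Int.gcd x y = 0 := by exact_mod_cast h0
      exact h (Int.gcd_eq_zero_iff.mp this)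
    obtain ⟨a, ha⟩ := Int.gcd_dvd_left x y
    obtain ⟨b, hb⟩ := Int.gcd_dvd_right x y
    refine ⟨Int.gcd x y, a, b, Int.gcdA x y, Int.gcdB x y, ha, hb, ?_⟩
    have e := Int.gcd_eq_gcd_ab x y
    apply mul_left_cancel₀ hg
    calc (Int.gcd x y : ℤ) * (Int.gcdA x y * a + Int.gcdB x y * b)
        = ((Int.gcd x y : ℤ) * a) * Int.gcdA x y + ((Int.gcd x y : ℤ) * b) * Int.gcdB x y := by ring
      _ = x * Int.gcdA x y + y * Int.gcdB x y := by rw [← ha, ← hb]
      _ = (Int.gcd x y : ℤ) := e.symm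
      _ = (Int.gcd x y : ℤ) * 1 := by ring

/-- primitive vector in Z^4 -/
def Pr4 (c : Fin 4 → ℤ) : Prop := ∀ p : ℕ, p.Prime → ¬ ∀ i, (p : ℤ) ∣ c i

theorem ex_U (c : Fin 4 → ℤ) (hc : Pr4 c) :
    ∃ U : Matrix (Fin 4) (Fin 4) ℤ, U.det ^ 2 = 1 ∧ c ᵥ* U = ![0, 0, 0, 1] := by
  obtain ⟨g, a, b, α, β, h0, h1, hab⟩ := gcd_dec (c 0) (c 1)
  obtain ⟨h, a', b', α', β', hg, h2, hab'⟩ := gcd_dec g (c 2)
  obtain ⟨k, a'', b'', α'', β'', hh, h3, hab''⟩ := gcd_dec h (c 3)
  have hk : k = 1 ∨ k = -1 := by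
    have hku : IsUnit k := by
      rw [Int.isUnit_iff_natAbs_eq]
      by_contra hcon
      obtain ⟨p, hp, hpk⟩ := Nat.exists_prime_and_dvd hcon
      have hpk' : (p : ℤ) ∣ k := Int.natCast_dvd.mpr hpk
      refine hc p hp ?_
      have hph : (p : ℤ) ∣ h := by rw [hh]; exact Dvd.dvd.mul_right hpk' _
      have hpg : (p : ℤ) ∣ g := by rw [hg]; exact Dvd.dvd.mul_right hph _
      intro i
      fin_cases i
      · show (p : ℤ) ∣ c 0
        rw [h0]; exact Dvd.dvd.mul_right hpg _
      · show (p : ℤ) ∣ c 1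
        rw [h1]; exact Dvd.dvd.mul_right hpg _
      · show (p : ℤ) ∣ c 2
        rw [h2]; exact Dvd.dvd.mul_right hph _
      · show (p : ℤ) ∣ c 3
        rw [h3]; exact Dvd.dvd.mul_right hpk' _
    exact Int.isUnit_iff.mp hku
  have hk2 : k * k = 1 := by rcases hk with h | h <;> rw [h] <;> norm_num
  refine ⟨!![-b, -b' * α, -b'' * (α' * α), k * (α'' * (α' * α));
            a, -b' * β, -b'' * (α' * β), k * (α'' * (α' * β));
            0, a', -b'' * β', k * (α'' * β');
            0, 0, a'', k * β''], ?_, ?_⟩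
  · have e : (!![-b, -b' * α, -b'' * (α' * α), k * (α'' * (α' * α));
            a, -b' * β, -b'' * (α' * β), k * (α'' * (α' * β));
            0, a', -b'' * β', k * (α'' * β');
            0, 0, a'', k * β''] : Matrix (Fin 4) (Fin 4) ℤ).det
        = -k * (α * a + β * b) * (α' * a' + β' * b') * (α'' * a'' + β'' * b'') := by
      rw [Matrix.det_succ_row_zero]
      simp only [Fin.sum_univ_succ, Matrix.det_fin_three, Matrix.submatrix_apply]
      simp [Fin.succAbove]
      ring
    rw [e, hab, hab', hab'']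
    linear_combination hk2
  · ext i
    fin_cases i
    · simp [vecMul, dotProduct, Fin.sum_univ_succ, h0, h1]; ring
    · simp [vecMul, dotProduct, Fin.sum_univ_succ]
      linear_combination (-b' * α) * h0 + (-b' * β) * h1 + a' * h2 + (-b' * g) * hab + (-b') * hg
    · simp [vecMul, dotProduct, Fin.sum_univ_succ]
      linear_combination (-b'' * α' * α) * h0 + (-b'' * α' * β) * h1 + (-b'' * β') * h2 + a'' * h3
        + (-b'' * α' * g) * hab + (-b'' * α') * hg + (-b'' * h) * hab' + (-b'') * hh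
    · simp [vecMul, dotProduct, Fin.sum_univ_succ]
      linear_combination (k * α'' * α' * α) * h0 + (k * α'' * α' * β) * h1 + (k * α'' * β') * h2
        + (k * β'') * h3 + (k * α'' * α' * g) * hab + (k * α'' * α') * hg + (k * α'' * h) * hab'
        + (k * α'') * hh + (k * k) * hab'' + hk2

end Pool.Agent.PP5B
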