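import Pool.Agent.PP5B.Cnc

/-! PP5 (b): the local numbers ig. -/

namespace Pool.Agent.PP5B

open Matrix

variable {G U : Matrix (Fin 4) (Fin 4) ℤ} {c : Fin 4 → ℤ}

/-- the converse of Dat.mn -/
theorem Dat.mn' (h : Dat G c U) {n : ℤ} (hm : mnQ G c n) : (TF (Uᵀ * G * U)).mn n := by
  set F := TF (Uᵀ * G * U) with hF
  have key : ∀ u u' w w' : V, n ∣ F.bf u w * F.bf u' w' - F.bf u w' * F.bf u' w := by
    intro u u' w w'
    have := hm (U *ᵥ emb u) (U *ᵥ emb u') (U *ᵥ emb w) (U *ᵥ emb w') (h.push u) (h.push u')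
      (h.push w) (h.push w')
    rwa [h.bf', h.bf', h.bf', h.bf'] at this
  refine ⟨?_, ?_, ?_, ?_, ?_, ?_⟩
  · have := key (0, 1, 0) (0, 0, 1) (0, 1, 0) (0, 0, 1)
    rw [minors] at this; simpa [cr] using this
  · have := key (0, 0, 1) (1, 0, 0) (0, 0, 1) (1, 0, 0)
    rw [minors] at this; simpa [cr] using this
  · have := key (1, 0, 0) (0, 1, 0) (1, 0, 0) (0, 1, 0)
    rw [minors] at this; simpa [cr] using this
  · have := key (0, 1, 0) (0, 0, 1) (0, 0, 1) (1, 0, 0)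
    rw [minors] at this; simpa [cr] using this
  · have := key (0, 1, 0) (0, 0, 1) (1, 0, 0) (0, 1, 0)
    rw [minors] at this; simpa [cr] using this
  · have := key (0, 0, 1) (1, 0, 0) (1, 0, 0) (0, 1, 0)
    rw [minors] at this; simpa [cr] using this

/-- the determinant of the adjugate of the ternary Gram matrix -/
theorem det_adj (F : Tf) :
    (4 * F.b * F.c - F.d ^ 2) * ((4 * F.a * F.c - F.e ^ 2) * (4 * F.a * F.b - F.f ^ 2)
        - (F.e * F.f - 2 * F.a * F.d) ^ 2)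
      - (F.d * F.e - 2 * F.c * F.f) * ((F.d * F.e - 2 * F.c * F.f) * (4 * F.a * F.b - F.f ^ 2)
        - (F.e * F.f - 2 * F.a * F.d) * (F.d * F.f - 2 * F.b * F.e))
      + (F.d * F.f - 2 * F.b * F.e) * ((F.d * F.e - 2 * F.c * F.f) * (F.e * F.f - 2 * F.a * F.d)
        - (4 * F.a * F.c - F.e ^ 2) * (F.d * F.f - 2 * F.b * F.e)) = (2 * F.dl) ^ 2 := by
  simp only [Tf.dl]; ring

theorem mn_dl {F : Tf} {n : ℤ} (h : F.mn n) : n ^ 3 ∣ (2 * F.dl) ^ 2 := by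
  rw [← det_adj]
  obtain ⟨⟨a, ha⟩, ⟨b, hb⟩, ⟨c, hc⟩, ⟨d, hd⟩, ⟨e, he⟩, ⟨f, hf⟩⟩ := h
  rw [ha, hb, hc, hd, he, hf]
  exact ⟨a * (b * c - f ^ 2) - d * (d * c - f * e) + e * (d * f - b * e), by ring⟩

/-- det G in terms of the ternary block -/
theorem mn_det {M : Matrix (Fin 4) (Fin 4) ℤ} (hs : ∀ i j, M i j = M j i) (hE : ∀ i, 2 ∣ M i i) {n : ℤ}
    (h : (TF M).mn n) : n ∣ M.det := by
  obtain ⟨a, ha⟩ := hE 0
  obtain ⟨b, hb⟩ := hE 1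
  obtain ⟨c, hc⟩ := hE 2
  have e1 : M 0 0 / 2 = a := by rw [ha]; simp
  have e2 : M 1 1 / 2 = b := by rw [hb]; simp
  have e3 : M 2 2 / 2 = c := by rw [hc]; simp
  obtain ⟨h1, h2, h3, h4, h5, h6⟩ := h
  simp only [TF, e1, e2, e3] at h1 h2 h3 h4 h5 h6
  have key : M.det = (4 * b * c - M 1 2 ^ 2) * (2 * a * M 3 3 - M 0 3 ^ 2)
      + (M 1 2 * M 0 2 - 2 * c * M 0 1) * (M 0 1 * M 3 3 - 2 * M 0 3 * M 1 3)
      + (M 1 2 * M 0 1 - 2 * b * M 0 2) * (M 0 2 * M 3 3 - 2 * M 0 3 * M 2 3)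
      - (4 * a * c - M 0 2 ^ 2) * M 1 3 ^ 2 - (4 * a * b - M 0 1 ^ 2) * M 2 3 ^ 2
      - 2 * (M 0 2 * M 0 1 - 2 * a * M 1 2) * M 1 3 * M 2 3 := by
    rw [Matrix.det_succ_row_zero]
    simp only [Fin.sum_univ_succ, Matrix.det_fin_three, Matrix.submatrix_apply]
    simp [Fin.succAbove]
    rw [ha, hb, hc, hs 1 0, hs 2 0, hs 2 1, hs 3 0, hs 3 1, hs 3 2]
    ring
  rw [key]
  refine dvd_sub (dvd_sub (dvd_sub (dvd_add (dvd_add ?_ ?_) ?_) ?_) ?_) ?_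
  · exact Dvd.dvd.mul_right h1 _
  · exact Dvd.dvd.mul_right h4 _
  · exact Dvd.dvd.mul_right h5 _
  · exact Dvd.dvd.mul_right h2 _
  · exact Dvd.dvd.mul_right h3 _
  · exact Dvd.dvd.mul_right (Dvd.dvd.mul_right (Dvd.dvd.mul_left h6 _) _) _

open Classical in
/-- the largest g with l^g | all 2 x 2 minors on c^perp -/
noncomputable def ig (G : Matrix (Fin 4) (Fin 4) ℤ) (c : Fin 4 → ℤ) (l : ℕ) : ℕ :=
  Nat.findGreatest (fun g => mnQ G c ((l : ℤ) ^ g)) (2 * kx G c l + 2)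

theorem dat_exists (hsym : ∀ i j, G i j = G j i) (hev : ∀ i, 2 ∣ G i i) (hc : Pr4 c) :
    ∃ U, Dat G c U := by
  obtain ⟨U, h1, h2⟩ := ex_U c hc
  exact ⟨U, hsym, hev, h1, h2⟩

theorem mnQ_one : mnQ G c 1 := fun _ _ _ _ _ _ _ _ => one_dvd _

theorem ig_mn (G : Matrix (Fin 4) (Fin 4) ℤ) (c : Fin 4 → ℤ) (l : ℕ) : mnQ G c ((l : ℤ) ^ ig G c l) := by
  classical
  unfold ig
  exact Nat.findGreatest_spec (P := fun g => mnQ G c ((l : ℤ) ^ g)) (Nat.zero_le _)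
    (by simpa using (mnQ_one (G := G) (c := c)))

/-- bound for the exponents -/
theorem mnQ_le (hsym : ∀ i j, G i j = G j i) (hev : ∀ i, 2 ∣ G i i) (hc : Pr4 c) (hD : D2 G c ≠ 0)
    {l : ℕ} (hl : l.Prime) {g : ℕ} (h : mnQ G c ((l : ℤ) ^ g)) :
    3 * g ≤ 2 * kx G c l + (if l = 2 then 2 else 0) := by
  obtain ⟨U, hU⟩ := dat_exists hsym hev hc
  have h1 := mn_dl (hU.mn' h)
  set F := TF (Uᵀ * G * U) with hF
  have hD2 : D2 G c = 2 * F.dl := D2_even hU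
  have hd : F.dl ≠ 0 := by intro h0; rw [h0, mul_zero] at hD2; exact hD hD2
  have hkx : F.dl.natAbs.factorization l = kx G c l := by rw [kx, hU.dl2]
  have h2 : l ^ (3 * g) ∣ (2 * F.dl.natAbs) ^ 2 := by
    have := Int.natAbs_dvd_natAbs.mpr h1
    rw [Int.natAbs_pow, Int.natAbs_pow, Int.natAbs_pow, Int.natAbs_natCast, Int.natAbs_mul] at this
    rw [← pow_mul, mul_comm g 3] at this
    exact this
  have hne : (2 * F.dl.natAbs) ^ 2 ≠ 0 := by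
    have := Int.natAbs_ne_zero.mpr hd
    positivity
  have h3 := (hl.pow_dvd_iff_le_factorization hne).mp h2
  rw [Nat.factorization_pow, Nat.factorization_mul two_ne_zero (Int.natAbs_ne_zero.mpr hd)] at h3
  simp only [Finsupp.smul_apply, Finsupp.add_apply, smul_eq_mul, hkx] at h3
  have h4 : (2 : ℕ).factorization l = if l = 2 then 1 else 0 := by
    by_cases h2' : l = 2
    · subst h2'; simp [Nat.Prime.factorization_self Nat.prime_two]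
    · rw [if_neg h2']
      exact Nat.factorization_eq_zero_of_not_dvd (fun hd2 => h2' ((Nat.prime_dvd_prime_iff_eq hl Nat.prime_two).mp hd2))
  rw [h4] at h3
  split_ifs at h3 ⊢ <;> omega

theorem ig_le (hsym : ∀ i j, G i j = G j i) (hev : ∀ i, 2 ∣ G i i) (hc : Pr4 c) (hD : D2 G c ≠ 0)
    {l : ℕ} (hl : l.Prime) : 3 * ig G c l ≤ 2 * kx G c l + (if l = 2 then 2 else 0) :=
  mnQ_le hsym hev hc hD hl (ig_mn G c l)

theorem ig_not (hsym : ∀ i j, G i j = G j i) (hev : ∀ i, 2 ∣ G i i) (hc : Pr4 c) (hD : D2 G c ≠ 0)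
    {l : ℕ} (hl : l.Prime) : ¬ mnQ G c ((l : ℤ) ^ (ig G c l + 1)) := by
  classical
  intro h
  have h1 := mnQ_le hsym hev hc hD hl h
  have h2 : ig G c l + 1 ≤ 2 * kx G c l + 2 := by
    split_ifs at h1 <;> omega
  have h3 : ig G c l + 1 ≤ ig G c l := by
    conv_rhs => unfold ig
    exact Nat.le_findGreatest h2 h
  omega

theorem ig_zero (hsym : ∀ i j, G i j = G j i) (hev : ∀ i, 2 ∣ G i i) (hc : Pr4 c)
    {l : ℕ} (hdet : ¬ ((l : ℤ) ∣ G.det)) : ig G c l = 0 := by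
  by_contra h0
  obtain ⟨U, hU⟩ := dat_exists hsym hev hc
  have h1 := ig_mn G c l
  have h2 : mnQ G c (l : ℤ) := by
    intro u u' w w' a1 a2 a3 a4
    exact (dvd_pow_self (l : ℤ) h0).trans (h1 u u' w w' a1 a2 a3 a4)
  have h3 := mn_det hU.sym' hU.ev' (hU.mn' h2)
  apply hdet
  have h4 : (Uᵀ * G * U).det = G.det := by
    rw [Matrix.det_mul, Matrix.det_mul, Matrix.det_transpose]
    have := hU.det
    calc U.det * G.det * U.det = U.det ^ 2 * G.det := by ring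
      _ = _ := by rw [this, one_mul]
  rwa [h4] at h3

/-- the exponent in the loss -/
noncomputable def il (G : Matrix (Fin 4) (Fin 4) ℤ) (c : Fin 4 → ℤ) (l : ℕ) : ℕ :=
  (ig G c l + (if l = 2 then 1 else 0)) / 2

theorem il_le (hsym : ∀ i j, G i j = G j i) (hev : ∀ i, 2 ∣ G i i) (hc : Pr4 c) (hD : D2 G c ≠ 0)
    {l : ℕ} (hl : l.Prime) : 3 * il G c l ≤ kx G c l + (if l = 2 then 2 else 0) := by
  have := ig_le hsym hev hc hD hl
  unfold il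
  split_ifs at this ⊢ <;> omega

theorem il_zero (hsym : ∀ i j, G i j = G j i) (hev : ∀ i, 2 ∣ G i i) (hc : Pr4 c)
    {l : ℕ} (hdet : ¬ ((l : ℤ) ∣ G.det)) : il G c l = 0 := by
  unfold il
  rw [ig_zero hsym hev hc hdet]
  split_ifs <;> rfl

/-- s(x,m) -/
noncomputable def sl (G : Matrix (Fin 4) (Fin 4) ℤ) (c : Fin 4 → ℤ) : ℕ :=
  ∏ l ∈ (D2 G c / 2).natAbs.primeFactors, l ^ (il G c l)

theorem gl_sq (G : Matrix (Fin 4) (Fin 4) ℤ) (c : Fin 4 → ℤ) : gl G c (ig G c) = sl G c ^ 2 := by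
  unfold gl sl
  rw [← Finset.prod_pow]
  refine Finset.prod_congr rfl fun l _ => ?_
  rw [← pow_mul]
  congr 1
  unfold ls il
  ring

/-- THE CONIC THEOREM with the intrinsic local numbers. -/
theorem conic' (G : Matrix (Fin 4) (Fin 4) ℤ) (hsym : ∀ i j, G i j = G j i) (hev : ∀ i, 2 ∣ G i i)
    (hdet : G.det ≠ 0) (c : Fin 4 → ℤ) (hc : Pr4 c) (hD : D2 G c ≠ 0)
    (S : Finset (Fin 4 → ℤ)) (hS : ∀ v ∈ S, Pr4 v ∧ v ⬝ᵥ (G *ᵥ v) = 0 ∧ c ⬝ᵥ v = 0)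
    (H Y Am : ℝ) (η : Fin 4 → ℝ) (hH0 : 0 ≤ H)
    (hH : ∀ v ∈ S, ∀ w ∈ S, |((v ⬝ᵥ (G *ᵥ w) : ℤ) : ℝ)| ≤ H) (hY0 : 0 < Y)
    (hY : ∀ v ∈ S, |η ⬝ᵥ cvR v| ≤ Y) (hAm0 : Am ≠ 0)
    (hAm : Am * (G.det : ℝ) = (D2 G c : ℝ) * (η ⬝ᵥ ((toR G).adjugate *ᵥ η))
      - (cvR c ⬝ᵥ ((toR G).adjugate *ᵥ η)) ^ 2) :
    (S.card : ℝ) ≤ 2 * (omA G c : ℝ) * ((1 + 2 * Real.log (1 + H * |Am| / (Y ^ 2 * |(D2 G c : ℝ)|))) *
      (2 + 30 * Y * (sl G c : ℝ) / √|Am|)) := by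
  have h := conic G hsym hev hdet c hc hD (ig G c)
    (fun l hl _ => ig_not hsym hev hc hD hl) S hS H Y Am η hH0 hH hY0 hY hAm0 hAm
  have e : 30 * Y * √((gl G c (ig G c) : ℝ) / |Am|) = 30 * Y * (sl G c : ℝ) / √|Am| := by
    rw [gl_sq, Real.sqrt_div (by positivity)]
    push_cast
    rw [Real.sqrt_sq (Nat.cast_nonneg _)]
    ring
  rw [e] at h
  exact h

end Pool.Agent.PP5B
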