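import Pool.Agent.PP5B.Def

/-! PP5 (b): product of the local classes. -/

namespace Pool.Agent.PP5B

theorem CL_one (F : Tf) : F.CL 1 1 :=
  ⟨fun _ => 0, fun v _ => ⟨by norm_num, fun w _ _ => one_dvd _⟩⟩

theorem CL_mul {F : Tf} {n m : ℤ} {N M : ℕ} (h1 : F.CL n N) (h2 : F.CL m M) (hc : IsCoprime n m) :
    F.CL (n * m) (N * M) := by
  obtain ⟨f, hf⟩ := h1
  obtain ⟨g, hg⟩ := h2
  refine ⟨fun v => f v + N * g v, fun v hv => ⟨?_, ?_⟩⟩
  · have a := (hf v hv).1
    have b := (hg v hv).1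
    calc f v + N * g v < N + N * g v := by omega
      _ = N * (g v + 1) := by ring
      _ ≤ N * M := Nat.mul_le_mul_left _ b
  · intro w hw e
    have a := (hf v hv).1
    have a' := (hf w hw).1
    have hN : 0 < N := by omega
    simp only at e
    have e1 : f v = f w := by
      have h := congrArg (fun x => x % N) e
      simpa [Nat.add_mul_mod_self_left, Nat.mod_eq_of_lt a, Nat.mod_eq_of_lt a'] using h
    have e2 : g v = g w := by
      rw [e1] at e
      exact Nat.eq_of_mul_eq_mul_left hN (Nat.add_left_cancel e)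
    exact hc.mul_dvd ((hf v hv).2 w hw e1) ((hg v hv).2 w hw e2)

theorem CL_mono {F : Tf} {n : ℤ} {N M : ℕ} (h : F.CL n N) (hNM : N ≤ M) : F.CL n M := by
  obtain ⟨f, hf⟩ := h
  exact ⟨f, fun v hv => ⟨lt_of_lt_of_le (hf v hv).1 hNM, (hf v hv).2⟩⟩

theorem CL_prod {F : Tf} (P : Finset ℕ) (hP : ∀ l ∈ P, l.Prime) (e N : ℕ → ℕ)
    (h : ∀ l ∈ P, F.CL ((l : ℤ) ^ e l) (N l)) :
    F.CL (∏ l ∈ P, (l : ℤ) ^ e l) (∏ l ∈ P, N l) := by
  classical
  induction P using Finset.induction_on with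
  | empty => simpa using CL_one F
  | insert a s ha ih =>
    rw [Finset.prod_insert ha, Finset.prod_insert ha]
    refine CL_mul (h a (Finset.mem_insert_self a s))
      (ih (fun l hl => hP l (Finset.mem_insert_of_mem hl))
        (fun l hl => h l (Finset.mem_insert_of_mem hl))) ?_
    refine IsCoprime.prod_right fun i hi => ?_
    have hai : a ≠ i := fun hh => ha (hh ▸ hi)
    have h1 : Nat.Coprime a i := (Nat.coprime_primes (hP a (Finset.mem_insert_self a s))
      (hP i (Finset.mem_insert_of_mem hi))).mpr hai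
    exact (Nat.isCoprime_iff_coprime.mpr h1).pow

/-- no zeros: no classes -/
theorem CL_zero {F : Tf} (h : ∀ v, ¬ F.Z v) (n : ℤ) : F.CL n 0 :=
  ⟨fun _ => 0, fun v hv => absurd hv (h v)⟩

end Pool.Agent.PP5B
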