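import Pool.Agent.PP5B.Idn
import Pool.Agent.PP5B.Uni

/-! PP5 (b): from the quaternary form and a primitive linear form to a ternary form. -/

namespace Pool.Agent.PP5B

open Matrix

/-- the ternary form on the first three coordinates -/
def TF (G : Matrix (Fin 4) (Fin 4) ℤ) : Tf :=
  ⟨G 0 0 / 2, G 1 1 / 2, G 2 2 / 2, G 1 2, G 0 2, G 0 1⟩

def emb (v : V) : Fin 4 → ℤ := ![v.1, v.2.1, v.2.2, 0]

theorem bf_emb {G : Matrix (Fin 4) (Fin 4) ℤ} (hG : ∀ i j, G i j = G j i) (hE : ∀ i, 2 ∣ G i i)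
    (v w : V) : emb v ⬝ᵥ (G *ᵥ emb w) = (TF G).bf v w := by
  obtain ⟨a, ha⟩ := hE 0
  obtain ⟨b, hb⟩ := hE 1
  obtain ⟨c, hc⟩ := hE 2
  have e1 : G 0 0 / 2 = a := by rw [ha]; simp
  have e2 : G 1 1 / 2 = b := by rw [hb]; simp
  have e3 : G 2 2 / 2 = c := by rw [hc]; simp
  simp only [TF, Tf.bf, e1, e2, e3]
  simp [emb, dotProduct, mulVec, Fin.sum_univ_succ]
  rw [ha, hb, hc, hG 1 0, hG 2 0, hG 2 1]
  ring

theorem q_emb {G : Matrix (Fin 4) (Fin 4) ℤ} (hG : ∀ i j, G i j = G j i) (hE : ∀ i, 2 ∣ G i i)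
    (v : V) : emb v ⬝ᵥ (G *ᵥ emb v) = 2 * (TF G).q v := by
  rw [bf_emb hG hE, bf_self]

theorem dl_adj {G : Matrix (Fin 4) (Fin 4) ℤ} (hG : ∀ i j, G i j = G j i) (hE : ∀ i, 2 ∣ G i i) :
    2 * (TF G).dl = G.adjugate 3 3 := by
  obtain ⟨a, ha⟩ := hE 0
  obtain ⟨b, hb⟩ := hE 1
  obtain ⟨c, hc⟩ := hE 2
  have e1 : G 0 0 / 2 = a := by rw [ha]; simp
  have e2 : G 1 1 / 2 = b := by rw [hb]; simp
  have e3 : G 2 2 / 2 = c := by rw [hc]; simp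
  simp only [TF, Tf.dl, e1, e2, e3]
  rw [Matrix.adjugate_fin_succ_eq_det_submatrix]
  rw [Matrix.det_fin_three]
  simp [Fin.succAbove, Matrix.submatrix_apply]
  rw [ha, hb, hc, hG 1 0, hG 2 0, hG 2 1]
  ring

/-- 2 x 2 minors -/
theorem minors (F : Tf) (u u' w w' : V) :
    F.bf u w * F.bf u' w' - F.bf u w' * F.bf u' w
      = (cr u u').1 * (cr w w').1 * (4 * F.b * F.c - F.d ^ 2)
      + (cr u u').2.1 * (cr w w').2.1 * (4 * F.a * F.c - F.e ^ 2)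
      + (cr u u').2.2 * (cr w w').2.2 * (4 * F.a * F.b - F.f ^ 2)
      + ((cr u u').1 * (cr w w').2.1 + (cr u u').2.1 * (cr w w').1) * (F.d * F.e - 2 * F.c * F.f)
      + ((cr u u').1 * (cr w w').2.2 + (cr u u').2.2 * (cr w w').1) * (F.d * F.f - 2 * F.b * F.e)
      + ((cr u u').2.1 * (cr w w').2.2 + (cr u u').2.2 * (cr w w').2.1) * (F.e * F.f - 2 * F.a * F.d) := by
  simp only [Tf.bf, cr]; ring

theorem mn_minors {F : Tf} {n : ℤ} (h : F.mn n) (u u' w w' : V) :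
    n ∣ F.bf u w * F.bf u' w' - F.bf u w' * F.bf u' w := by
  rw [minors]
  obtain ⟨h1, h2, h3, h4, h5, h6⟩ := h
  exact dvd_add (dvd_add (dvd_add (dvd_add (dvd_add (Dvd.dvd.mul_left h1 _) (Dvd.dvd.mul_left h2 _))
    (Dvd.dvd.mul_left h3 _)) (Dvd.dvd.mul_left h4 _)) (Dvd.dvd.mul_left h5 _)) (Dvd.dvd.mul_left h6 _)

/-- primitive in dimension 3: Bezout -/
theorem bez {w : V} (hw : Pr w) : ∃ α β γ : ℤ, α * w.1 + β * w.2.1 + γ * w.2.2 = 1 := by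
  obtain ⟨g, a, b, α, β, h0, h1, hab⟩ := gcd_dec w.1 w.2.1
  obtain ⟨k, a', b', α', β', hg, h2, hab'⟩ := gcd_dec g w.2.2
  have hku : IsUnit k := by
    rw [Int.isUnit_iff_natAbs_eq]
    by_contra hcon
    obtain ⟨p, hp, hpk⟩ := Nat.exists_prime_and_dvd hcon
    have hpk' : (p : ℤ) ∣ k := Int.natCast_dvd.mpr hpk
    have hpg : (p : ℤ) ∣ g := by rw [hg]; exact Dvd.dvd.mul_right hpk' _
    exact hw p hp ⟨by rw [h0]; exact Dvd.dvd.mul_right hpg _, by rw [h1]; exact Dvd.dvd.mul_right hpg _,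
      by rw [h2]; exact Dvd.dvd.mul_right hpk' _⟩
  have hk2 : k * k = 1 := by
    rcases Int.isUnit_iff.mp hku with h | h <;> rw [h] <;> norm_num
  refine ⟨k * α' * α, k * α' * β, k * β', ?_⟩
  linear_combination (k * α' * α) * h0 + (k * α' * β) * h1 + (k * β') * h2 + (k * α' * g) * hab
    + (k * α') * hg + k * k * hab' + hk2

theorem cr_zero {w w' : V} (hw : Pr w) (hw' : Pr w') (h : cr w w' = 0) : w = w' ∨ w = -w' := by
  obtain ⟨α, β, γ, hb⟩ := bez hw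
  obtain ⟨w1, w2, w3⟩ := w
  obtain ⟨v1, v2, v3⟩ := w'
  simp only [cr, Prod.mk_eq_zero] at h
  obtain ⟨h1, h2, h3⟩ := h
  simp only at hb
  set t := α * v1 + β * v2 + γ * v3 with ht
  have e1 : v1 = t * w1 := by rw [ht]; linear_combination -v1 * hb - β * h3 + γ * h2
  have e2 : v2 = t * w2 := by rw [ht]; linear_combination -v2 * hb + α * h3 - γ * h1
  have e3 : v3 = t * w3 := by rw [ht]; linear_combination -v3 * hb - α * h2 + β * h1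
  have hku : IsUnit t := by
    rw [Int.isUnit_iff_natAbs_eq]
    by_contra hcon
    obtain ⟨p, hp, hpk⟩ := Nat.exists_prime_and_dvd hcon
    have hpk' : (p : ℤ) ∣ t := Int.natCast_dvd.mpr hpk
    exact hw' p hp ⟨by simp only; rw [e1]; exact Dvd.dvd.mul_right hpk' _,
      by simp only; rw [e2]; exact Dvd.dvd.mul_right hpk' _,
      by simp only; rw [e3]; exact Dvd.dvd.mul_right hpk' _⟩
  rcases Int.isUnit_iff.mp hku with h | h
  · left; rw [e1, e2, e3, h]; simp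
  · right; rw [e1, e2, e3, h]; simp

/-- the basic data -/
structure Dat (G : Matrix (Fin 4) (Fin 4) ℤ) (c : Fin 4 → ℤ) (U : Matrix (Fin 4) (Fin 4) ℤ) : Prop where
  sym : ∀ i j, G i j = G j i
  ev : ∀ i, 2 ∣ G i i
  det : U.det ^ 2 = 1
  row : c ᵥ* U = ![0, 0, 0, 1]

theorem quad_sum (G : Matrix (Fin 4) (Fin 4) ℤ) (hG : ∀ i j, G i j = G j i) (hE : ∀ i, 2 ∣ G i i)
    (v : Fin 4 → ℤ) : 2 ∣ v ⬝ᵥ (G *ᵥ v) := by
  obtain ⟨a, ha⟩ := hE 0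
  obtain ⟨b, hb⟩ := hE 1
  obtain ⟨c, hc⟩ := hE 2
  obtain ⟨d, hd⟩ := hE 3
  refine ⟨a * v 0 ^ 2 + b * v 1 ^ 2 + c * v 2 ^ 2 + d * v 3 ^ 2 + G 0 1 * v 0 * v 1 + G 0 2 * v 0 * v 2
    + G 0 3 * v 0 * v 3 + G 1 2 * v 1 * v 2 + G 1 3 * v 1 * v 3 + G 2 3 * v 2 * v 3, ?_⟩
  simp [dotProduct, mulVec, Fin.sum_univ_succ]
  rw [ha, hb, hc, hd, hG 1 0, hG 2 0, hG 2 1, hG 3 0, hG 3 1, hG 3 2]
  ring

namespace Dat

variable {G U : Matrix (Fin 4) (Fin 4) ℤ} {c : Fin 4 → ℤ}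

/-- transported Gram matrix -/
theorem sym' (h : Dat G c U) : ∀ i j, (Uᵀ * G * U) i j = (Uᵀ * G * U) j i := by
  intro i j
  have hGT : Gᵀ = G := by ext i j; exact h.sym j i
  have e : (Uᵀ * G * U)ᵀ = Uᵀ * G * U := by
    rw [Matrix.transpose_mul, Matrix.transpose_mul, Matrix.transpose_transpose, hGT, Matrix.mul_assoc]
  calc (Uᵀ * G * U) i j = (Uᵀ * G * U)ᵀ j i := rfl
    _ = _ := by rw [e]

theorem tr (a b : Fin 4 → ℤ) : a ⬝ᵥ ((Uᵀ * G * U) *ᵥ b) = (U *ᵥ a) ⬝ᵥ (G *ᵥ (U *ᵥ b)) := by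
  rw [← Matrix.mulVec_mulVec, ← Matrix.mulVec_mulVec, dotProduct_mulVec, Matrix.vecMul_transpose]

theorem ev' (h : Dat G c U) : ∀ i, 2 ∣ (Uᵀ * G * U) i i := by
  intro i
  have e : (Uᵀ * G * U) i i = (Pi.single i 1) ⬝ᵥ ((Uᵀ * G * U) *ᵥ (Pi.single i 1)) := by simp
  rw [e, tr]
  exact quad_sum G h.sym h.ev _

theorem pull (h : Dat G c U) {v : Fin 4 → ℤ} (hv : c ⬝ᵥ v = 0) : ∃ w : V, v = U *ᵥ emb w := by
  set y := U.det • (U.adjugate *ᵥ v) with hy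
  have e1 : U *ᵥ y = v := by
    rw [hy, Matrix.mulVec_smul, Matrix.mulVec_mulVec, Matrix.mul_adjugate, Matrix.smul_mulVec,
      Matrix.one_mulVec, smul_smul, ← sq, h.det, one_smul]
  have e2 : y 3 = 0 := by
    have : (c ᵥ* U) ⬝ᵥ y = 0 := by rw [← dotProduct_mulVec, e1, hv]
    rw [h.row] at this
    simpa [dotProduct, Fin.sum_univ_succ] using this
  refine ⟨(y 0, y 1, y 2), ?_⟩
  have e3 : emb (y 0, y 1, y 2) = y := by
    ext i; fin_cases i <;> simp [emb, e2]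
  rw [e3, e1]

theorem push (h : Dat G c U) (w : V) : c ⬝ᵥ (U *ᵥ emb w) = 0 := by
  rw [dotProduct_mulVec, h.row]
  simp [emb, dotProduct, Fin.sum_univ_succ]

theorem bf' (h : Dat G c U) (v w : V) :
    (U *ᵥ emb v) ⬝ᵥ (G *ᵥ (U *ᵥ emb w)) = (TF (Uᵀ * G * U)).bf v w := by
  rw [← tr, bf_emb h.sym' h.ev']

theorem q' (h : Dat G c U) (v : V) :
    (U *ᵥ emb v) ⬝ᵥ (G *ᵥ (U *ᵥ emb v)) = 2 * (TF (Uᵀ * G * U)).q v := by
  rw [h.bf', bf_self]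

theorem dl' (h : Dat G c U) : 2 * (TF (Uᵀ * G * U)).dl = c ⬝ᵥ (G.adjugate *ᵥ c) := by
  rw [dl_adj h.sym' h.ev']
  have hc : c = U.det • ((U.adjugate)ᵀ *ᵥ (![0, 0, 0, 1] : Fin 4 → ℤ)) := by
    rw [← h.row, ← Matrix.vecMul_transpose, Matrix.transpose_transpose, Matrix.vecMul_vecMul,
      Matrix.mul_adjugate, Matrix.vecMul_smul, Matrix.vecMul_one, smul_smul, ← sq, h.det, one_smul]
  have e : (Uᵀ * G * U).adjugate = U.adjugate * G.adjugate * (U.adjugate)ᵀ := by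
    rw [Matrix.adjugate_mul_distrib, Matrix.adjugate_mul_distrib, Matrix.adjugate_transpose,
      Matrix.mul_assoc]
  have e2 : (Uᵀ * G * U).adjugate 3 3
      = (![0, 0, 0, 1] : Fin 4 → ℤ) ⬝ᵥ ((Uᵀ * G * U).adjugate *ᵥ ![0, 0, 0, 1]) := by
    simp [dotProduct, mulVec, Fin.sum_univ_succ]
  rw [e2, e]
  nth_rewrite 2 [hc]
  nth_rewrite 1 [hc]
  rw [Matrix.mulVec_smul, smul_dotProduct, dotProduct_smul, smul_smul, ← sq, h.det, one_smul]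
  rw [← Matrix.mulVec_mulVec, ← Matrix.mulVec_mulVec, dotProduct_mulVec, ← Matrix.mulVec_transpose]

theorem prim (h : Dat G c U) {w : V} (hp : Pr4 (U *ᵥ emb w)) : Pr w := by
  intro p hpp hd
  refine hp p hpp fun i => ?_
  simp only [mulVec, dotProduct]
  refine Finset.dvd_sum fun j _ => Dvd.dvd.mul_left ?_ _
  fin_cases j
  · exact hd.1
  · exact hd.2.1
  · exact hd.2.2
  · exact dvd_zero _

end Dat

end Pool.Agent.PP5B
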