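import Pool.Agent.PP5B.Cyc

/-! PP5 (b): consequences of the cyclic radical. -/

namespace Pool.Agent.PP5B

theorem bf_smul (F : Tf) (n : ℤ) (v w : V) : F.bf v (n • w) = n * F.bf v w := by
  simp only [Tf.bf, Prod.smul_fst, Prod.smul_snd, smul_eq_mul]; ring

theorem dt_eq_cr (u v w : V) :
    dt u v w = w.1 * (cr u v).1 + w.2.1 * (cr u v).2.1 + w.2.2 * (cr u v).2.2 := by
  simp only [dt, cr]; ring

theorem dvd_dt {n : ℤ} {u v : V} (h : dv n (cr u v)) (w : V) : n ∣ dt u v w := by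
  rw [dt_eq_cr]
  exact dvd_add (dvd_add (Dvd.dvd.mul_left h.1 _) (Dvd.dvd.mul_left h.2.1 _))
    (Dvd.dvd.mul_left h.2.2 _)

theorem par_exists {l s : ℕ} {w v : V} (hw : ¬ dv (l : ℤ) w) (h : dv ((l : ℤ) ^ s) (cr w v)) :
    ∃ (q c : ℤ) (u : V), ¬ ((l : ℤ) ∣ q) ∧ q • v = c • w + ((l : ℤ) ^ s) • u := by
  obtain ⟨⟨a, ha⟩, ⟨b, hb⟩, ⟨c, hc⟩⟩ := h
  obtain ⟨w1, w2, w3⟩ := w
  obtain ⟨v1, v2, v3⟩ := v
  simp only [cr] at ha hb hc
  simp only [dv, not_and_or] at hw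
  rcases hw with hw | hw | hw
  · refine ⟨w1, v1, (0, c, -b), hw, ?_⟩
    ext
    · simp only [Prod.smul_fst, Prod.fst_add, smul_eq_mul]; ring
    · simp only [Prod.smul_fst, Prod.smul_snd, Prod.fst_add, Prod.snd_add, smul_eq_mul]
      linarith
    · simp only [Prod.smul_fst, Prod.smul_snd, Prod.fst_add, Prod.snd_add, smul_eq_mul]
      linarith
  · refine ⟨w2, v2, (-c, 0, a), hw, ?_⟩
    ext
    · simp only [Prod.smul_fst, Prod.smul_snd, Prod.fst_add, Prod.snd_add, smul_eq_mul]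
      linarith
    · simp only [Prod.smul_fst, Prod.smul_snd, Prod.fst_add, Prod.snd_add, smul_eq_mul]; ring
    · simp only [Prod.smul_fst, Prod.smul_snd, Prod.fst_add, Prod.snd_add, smul_eq_mul]
      linarith
  · refine ⟨w3, v3, (b, -a, 0), hw, ?_⟩
    ext
    · simp only [Prod.smul_fst, Prod.smul_snd, Prod.fst_add, Prod.snd_add, smul_eq_mul]
      linarith
    · simp only [Prod.smul_fst, Prod.smul_snd, Prod.fst_add, Prod.snd_add, smul_eq_mul]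
      linarith
    · simp only [Prod.smul_fst, Prod.smul_snd, Prod.fst_add, Prod.snd_add, smul_eq_mul]; ring

theorem cop_pow {l : ℕ} (hl : l.Prime) {q : ℤ} (hq : ¬ ((l : ℤ) ∣ q)) (s : ℕ) :
    IsCoprime ((l : ℤ) ^ s) q :=
  ((Nat.prime_iff_prime_int.mp hl).coprime_iff_not_dvd.mpr hq).pow_left

/-- (b) the radical exponent is at most half of the exponent of the half discriminant. -/
theorem rad_le {F : Tf} {l s : ℕ} (hl : l.Prime) {v : V} (hq : F.q v = 0) (hv : ¬ dv (l : ℤ) v)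
    (h : F.rad ((l : ℤ) ^ s) v) : (l : ℤ) ^ (2 * s) ∣ F.dl := by
  have key : ∀ w x : V, (l : ℤ) ^ (2 * s) ∣ F.dl * dt v w x ^ 2 := by
    intro w x
    rw [idD F v w x hq]
    obtain ⟨a, ha⟩ := h w
    obtain ⟨b, hb⟩ := h x
    refine ⟨a * b * F.bf w x - a ^ 2 * F.q x - b ^ 2 * F.q w, ?_⟩
    rw [ha, hb]; ring
  simp only [dv, not_and_or] at hv
  rcases hv with hv | hv | hv
  · have k := key (0, 1, 0) (0, 0, 1)
    have e : dt v (0, 1, 0) (0, 0, 1) = v.1 := by simp [dt]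
    rw [e] at k
    have c : IsCoprime ((l : ℤ) ^ (2 * s)) (v.1 ^ 2) := (cop_pow hl hv _).pow_right
    exact c.dvd_of_dvd_mul_right k
  · have k := key (0, 0, 1) (1, 0, 0)
    have e : dt v (0, 0, 1) (1, 0, 0) = v.2.1 := by simp [dt]
    rw [e] at k
    have c : IsCoprime ((l : ℤ) ^ (2 * s)) (v.2.1 ^ 2) := (cop_pow hl hv _).pow_right
    exact c.dvd_of_dvd_mul_right k
  · have k := key (1, 0, 0) (0, 1, 0)
    have e : dt v (1, 0, 0) (0, 1, 0) = v.2.2 := by simp [dt]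
    rw [e] at k
    have c : IsCoprime ((l : ℤ) ^ (2 * s)) (v.2.2 ^ 2) := (cop_pow hl hv _).pow_right
    exact c.dvd_of_dvd_mul_right k

/-- (c) -/
theorem rad_bf {F : Tf} {l s : ℕ} (hl : l.Prime) (hg : ¬ F.mn l) {v w : V}
    (hqv : F.q v = 0) (hv : ¬ dv (l : ℤ) v)
    (h1 : F.rad ((l : ℤ) ^ s) v) (h2 : F.rad ((l : ℤ) ^ s) w) : (l : ℤ) ^ (2 * s) ∣ F.bf v w := by
  obtain ⟨q, c, u, hq, hu⟩ := par_exists hv (cyc hl hg h1 h2)
  have e : q * F.bf v w = (l : ℤ) ^ s * F.bf v u := by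
    have e1 : F.bf v (q • w) = F.bf v (c • v + ((l : ℤ) ^ s) • u) := by rw [hu]
    rw [bf_smul, bf_add, bf_smul, bf_smul, bf_self, hqv] at e1
    linarith
  have hd : (l : ℤ) ^ (2 * s) ∣ q * F.bf v w := by
    rw [e, two_mul, pow_add]
    exact mul_dvd_mul_left _ (h1 u)
  exact (cop_pow hl hq _).dvd_of_dvd_mul_left hd

theorem dt3_dvd {l s : ℕ} (hl : l.Prime) {v1 v2 v3 : V} (h0 : ¬ dv (l : ℤ) v1)
    (h2 : dv ((l : ℤ) ^ s) (cr v1 v2)) (h3 : dv ((l : ℤ) ^ s) (cr v1 v3)) :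
    (l : ℤ) ^ (2 * s) ∣ dt v1 v2 v3 := by
  obtain ⟨q, c, u, hq, hu⟩ := par_exists h0 h2
  obtain ⟨q', c', u', hq', hu'⟩ := par_exists h0 h3
  have e : q * q' * dt v1 v2 v3 = (l : ℤ) ^ (2 * s) * dt v1 u u' := by
    have e1 : q * q' * dt v1 v2 v3 = dt v1 (q • v2) (q' • v3) := by
      simp only [dt, Prod.smul_fst, Prod.smul_snd, smul_eq_mul]; ring
    rw [e1, hu, hu']
    simp only [dt, Prod.smul_fst, Prod.smul_snd, Prod.fst_add, Prod.snd_add, smul_eq_mul]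
    ring
  have hd : (l : ℤ) ^ (2 * s) ∣ q * (q' * dt v1 v2 v3) := by
    rw [← mul_assoc, e]; exact dvd_mul_right _ _
  exact (cop_pow hl hq' _).dvd_of_dvd_mul_left ((cop_pow hl hq _).dvd_of_dvd_mul_left hd)

end Pool.Agent.PP5B
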