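import Mathlib

/-! PP5 (b): a quaternary form with a two dimensional isotropic subspace has square determinant. -/

namespace Pool.Agent.PP5B

open Matrix

theorem minor_ne {K : Type*} [Field K] (p r : Fin 4 → K)
    (hind : ∀ α β : K, (∀ i, α * p i + β * r i = 0) → α = 0 ∧ β = 0) :
    ∃ i j : Fin 4, p i * r j - p j * r i ≠ 0 := by
  by_contra hcon
  push Not at hcon
  have hp : ∃ i, p i ≠ 0 := by
    by_contra h
    push Not at h
    have := hind 1 0 (fun i => by rw [h i]; ring)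
    exact one_ne_zero this.1
  obtain ⟨i, hi⟩ := hp
  have := hind (- r i) (p i) (fun j => by linear_combination hcon i j)
  exact hi this.2

theorem det4 {K : Type*} [CommRing K] (N : Matrix (Fin 4) (Fin 4) K)
    (h00 : N 0 0 = 0) (h01 : N 0 1 = 0) (h10 : N 1 0 = 0) (h11 : N 1 1 = 0)
    (hs : ∀ i j, N i j = N j i) :
    N.det = (N 0 2 * N 1 3 - N 0 3 * N 1 2) ^ 2 := by
  rw [Matrix.det_succ_row_zero]
  simp only [Fin.sum_univ_succ, Matrix.det_fin_three, Matrix.submatrix_apply]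
  simp [Fin.succAbove, h00, h01, h10, h11]
  rw [show N 2 0 = N 0 2 from hs _ _, show N 2 1 = N 1 2 from hs _ _, show N 3 0 = N 0 3 from hs _ _,
    show N 3 1 = N 1 3 from hs _ _]
  ring

/-- 4x4 determinant with rows p, r, s, t -/
theorem det_rows {K : Type*} [CommRing K] (p r s t : Fin 4 → K) :
    (Matrix.of ![p, r, s, t]).det =
      (p 0 * r 1 - p 1 * r 0) * (s 2 * t 3 - s 3 * t 2)
      - (p 0 * r 2 - p 2 * r 0) * (s 1 * t 3 - s 3 * t 1)
      + (p 0 * r 3 - p 3 * r 0) * (s 1 * t 2 - s 2 * t 1)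
      + (p 1 * r 2 - p 2 * r 1) * (s 0 * t 3 - s 3 * t 0)
      - (p 1 * r 3 - p 3 * r 1) * (s 0 * t 2 - s 2 * t 0)
      + (p 2 * r 3 - p 3 * r 2) * (s 0 * t 1 - s 1 * t 0) := by
  rw [Matrix.det_succ_row_zero]
  simp only [Fin.sum_univ_succ, Matrix.det_fin_three, Matrix.submatrix_apply]
  simp [Fin.succAbove]
  ring

theorem exists_rows {K : Type*} [Field K] (p r : Fin 4 → K)
    (hind : ∀ α β : K, (∀ i, α * p i + β * r i = 0) → α = 0 ∧ β = 0) :
    ∃ s t : Fin 4 → K, (Matrix.of ![p, r, s, t]).det ≠ 0 := by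
  obtain ⟨i, j, hij⟩ := minor_ne p r hind
  by_contra hcon
  push Not at hcon
  have e01 := hcon (Pi.single 2 1) (Pi.single 3 1)
  have e02 := hcon (Pi.single 1 1) (Pi.single 3 1)
  have e03 := hcon (Pi.single 1 1) (Pi.single 2 1)
  have e12 := hcon (Pi.single 0 1) (Pi.single 3 1)
  have e13 := hcon (Pi.single 0 1) (Pi.single 2 1)
  have e23 := hcon (Pi.single 0 1) (Pi.single 1 1)
  rw [det_rows] at e01 e02 e03 e12 e13 e23
  simp [Pi.single_apply] at e01 e02 e03 e12 e13 e23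
  apply hij
  fin_cases i <;> fin_cases j <;> simp <;>
    first
    | linear_combination e01
    | linear_combination -e01
    | linear_combination e02
    | linear_combination -e02
    | linear_combination e03
    | linear_combination -e03
    | linear_combination e12
    | linear_combination -e12
    | linear_combination e13
    | linear_combination -e13
    | linear_combination e23
    | linear_combination -e23
    | ring

theorem sq_of_iso {K : Type*} [Field K] (G : Matrix (Fin 4) (Fin 4) K) (hG : ∀ i j, G i j = G j i)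
    (p r : Fin 4 → K) (hpp : p ⬝ᵥ (G *ᵥ p) = 0) (hpr : p ⬝ᵥ (G *ᵥ r) = 0)
    (hrr : r ⬝ᵥ (G *ᵥ r) = 0)
    (hind : ∀ α β : K, (∀ i, α * p i + β * r i = 0) → α = 0 ∧ β = 0) : IsSquare G.det := by
  obtain ⟨s, t, hst⟩ := exists_rows p r hind
  set P : Matrix (Fin 4) (Fin 4) K := Matrix.of ![p, r, s, t] with hP
  set N := P * G * Pᵀ with hN
  have hent : ∀ i j, N i j = P i ⬝ᵥ (G *ᵥ P j) := by
    intro i j
    rw [hN, Matrix.mul_assoc]
    simp only [Matrix.mul_apply, dotProduct, mulVec, Matrix.transpose_apply]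
  have hGT : Gᵀ = G := by ext i j; exact hG j i
  have hs : ∀ i j, N i j = N j i := by
    intro i j
    have : Nᵀ = N := by
      rw [hN, Matrix.transpose_mul, Matrix.transpose_mul, Matrix.transpose_transpose, hGT,
        Matrix.mul_assoc]
    calc N i j = Nᵀ j i := rfl
      _ = N j i := by rw [this]
  have h00 : N 0 0 = 0 := by rw [hent]; exact hpp
  have h01 : N 0 1 = 0 := by rw [hent]; exact hpr
  have h10 : N 1 0 = 0 := by rw [hs]; exact h01
  have h11 : N 1 1 = 0 := by rw [hent]; exact hrr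
  have hd := det4 N h00 h01 h10 h11 hs
  have hd2 : N.det = P.det ^ 2 * G.det := by
    rw [hN, Matrix.det_mul, Matrix.det_mul, Matrix.det_transpose]; ring
  refine ⟨(N 0 2 * N 1 3 - N 0 3 * N 1 2) / P.det, ?_⟩
  rw [← sq, div_pow, ← hd, hd2]
  field_simp

/-- l odd not needed: if l does not divide det G, l | c^T adj(G) c, v isotropic mod l in c^perp and
not in the radical of c^perp mod l, then det G is a square mod l. -/
theorem det_square {l : ℕ} [Fact l.Prime] (G : Matrix (Fin 4) (Fin 4) ℤ) (hG : ∀ i j, G i j = G j i)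
    (hd : ¬ ((l : ℤ) ∣ G.det)) (c v w : Fin 4 → ℤ) (hc : ¬ ∀ i, (l : ℤ) ∣ c i)
    (hcc : (l : ℤ) ∣ c ⬝ᵥ (G.adjugate *ᵥ c)) (hcv : c ⬝ᵥ v = 0) (hcw : c ⬝ᵥ w = 0)
    (hv : (l : ℤ) ∣ v ⬝ᵥ (G *ᵥ v)) (hvw : ¬ ((l : ℤ) ∣ v ⬝ᵥ (G *ᵥ w))) :
    IsSquare ((G.det : ℤ) : ZMod l) := by
  set f : ℤ →+* ZMod l := Int.castRingHom (ZMod l) with hf
  set G' := G.map f with hG'
  set u : Fin 4 → ℤ := G.adjugate *ᵥ c with hu
  have hGu : G *ᵥ u = G.det • c := by
    rw [hu, Matrix.mulVec_mulVec, Matrix.mul_adjugate, Matrix.smul_mulVec, Matrix.one_mulVec]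
  have hGT : Gᵀ = G := by ext i j; exact hG j i
  have hdetG : G'.det = ((G.det : ℤ) : ZMod l) := by
    rw [hG']; exact (RingHom.map_det f G).symm
  have cast_dot : ∀ a b : Fin 4 → ℤ, ((a ⬝ᵥ b : ℤ) : ZMod l)
      = (fun i => (a i : ZMod l)) ⬝ᵥ (fun i => (b i : ZMod l)) := by
    intro a b; simp [dotProduct]
  have cast_mul : ∀ b : Fin 4 → ℤ, (fun i => (((G *ᵥ b) i : ℤ) : ZMod l))
      = G' *ᵥ (fun i => (b i : ZMod l)) := by
    intro b; ext i; simp [hG', mulVec, dotProduct, hf]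
  have toz : ∀ a b : Fin 4 → ℤ, (fun i => (a i : ZMod l)) ⬝ᵥ (G' *ᵥ (fun i => (b i : ZMod l)))
      = ((a ⬝ᵥ (G *ᵥ b) : ℤ) : ZMod l) := by
    intro a b; rw [cast_dot, cast_mul]
  have z_of : ∀ z : ℤ, (l : ℤ) ∣ z → ((z : ℤ) : ZMod l) = 0 := by
    intro z hz; exact (ZMod.intCast_zmod_eq_zero_iff_dvd z l).mpr hz
  have of_z : ∀ z : ℤ, ((z : ℤ) : ZMod l) = 0 → (l : ℤ) ∣ z := by
    intro z hz; exact (ZMod.intCast_zmod_eq_zero_iff_dvd z l).mp hz
  rw [← hdetG]
  have huu : u ⬝ᵥ (G *ᵥ u) = G.det * (c ⬝ᵥ u) := by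
    rw [hGu, dotProduct_smul, dotProduct_comm, smul_eq_mul]
  have hvu : v ⬝ᵥ (G *ᵥ u) = 0 := by
    rw [hGu, dotProduct_smul, dotProduct_comm, hcv, smul_zero]
  have hwu : w ⬝ᵥ (G *ᵥ u) = 0 := by
    rw [hGu, dotProduct_smul, dotProduct_comm, hcw, smul_zero]
  refine sq_of_iso G' (fun i j => by simp [hG', hG i j]) (fun i => (v i : ZMod l))
    (fun i => (u i : ZMod l)) ?_ ?_ ?_ ?_
  · rw [toz]; exact z_of _ hv
  · rw [toz, hvu]; simp
  · rw [toz, huu]; exact z_of _ (Dvd.dvd.mul_left hcc _)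
  · intro α β hab
    have hvec : α • (fun i => (v i : ZMod l)) + β • (fun i => (u i : ZMod l)) = 0 := by
      ext i; simpa using hab i
    -- test with w
    have t1 : α * ((v ⬝ᵥ (G *ᵥ w) : ℤ) : ZMod l) + β * ((u ⬝ᵥ (G *ᵥ w) : ℤ) : ZMod l) = 0 := by
      rw [← toz, ← toz]
      have := congrArg (fun x => x ⬝ᵥ (G' *ᵥ (fun i => (w i : ZMod l)))) hvec
      simpa [add_dotProduct, smul_dotProduct] using this
    have hsym : u ⬝ᵥ (G *ᵥ w) = w ⬝ᵥ (G *ᵥ u) := by
      rw [dotProduct_mulVec, ← Matrix.mulVec_transpose, hGT, dotProduct_comm]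
    rw [hsym, hwu] at t1
    have hα : α = 0 := by
      have : α * ((v ⬝ᵥ (G *ᵥ w) : ℤ) : ZMod l) = 0 := by simpa using t1
      rcases mul_eq_zero.mp this with h | h
      · exact h
      · exact absurd (of_z _ h) hvw
    refine ⟨hα, ?_⟩
    by_contra hβ
    -- then u = 0 mod l, so det G * c = 0
    have hu0 : ∀ i, ((u i : ℤ) : ZMod l) = 0 := by
      intro i
      have := hab i
      rw [hα, zero_mul, zero_add] at this
      exact (mul_eq_zero.mp this).resolve_left hβ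
    apply hc
    intro i
    have h1 : ((G.det * c i : ℤ) : ZMod l) = 0 := by
      have h2 : (G *ᵥ u) i = G.det * c i := by rw [hGu]; simp
      rw [← h2]
      have h3 := congrFun (cast_mul u) i
      rw [h3]
      have h4 : (fun i => ((u i : ℤ) : ZMod l)) = 0 := by ext i; exact hu0 i
      rw [h4, mulVec_zero]; rfl
    have h5 := of_z _ h1
    exact ((Nat.prime_iff_prime_int.mp (Fact.out : l.Prime)).dvd_or_dvd h5).resolve_left hd

end Pool.Agent.PP5B
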