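import Pool.Agent.PP5B.Loc1
import Pool.Agent.PP5B.Rad
import Pool.Agent.PP5B.Prd
import Pool.Agent.PP5B.Qua
import Pool.Agent.PP5B.Sqr

/-! PP5 (b): the classes for a quaternary form and a linear form. -/

namespace Pool.Agent.PP5B

open Matrix

/-- twice the discriminant of the conic -/
def D2 (G : Matrix (Fin 4) (Fin 4) ℤ) (c : Fin 4 → ℤ) : ℤ := c ⬝ᵥ (G.adjugate *ᵥ c)

/-- n divides all 2 x 2 minors of the form on c^perp -/
def mnQ (G : Matrix (Fin 4) (Fin 4) ℤ) (c : Fin 4 → ℤ) (n : ℤ) : Prop :=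
  ∀ u u' w w' : Fin 4 → ℤ, c ⬝ᵥ u = 0 → c ⬝ᵥ u' = 0 → c ⬝ᵥ w = 0 → c ⬝ᵥ w' = 0 →
    n ∣ (u ⬝ᵥ (G *ᵥ w)) * (u' ⬝ᵥ (G *ᵥ w')) - (u ⬝ᵥ (G *ᵥ w')) * (u' ⬝ᵥ (G *ᵥ w))

/-- exponent of l in the discriminant of the conic -/
noncomputable def kx (G : Matrix (Fin 4) (Fin 4) ℤ) (c : Fin 4 → ℤ) (l : ℕ) : ℕ :=
  (D2 G c / 2).natAbs.factorization l

open Classical in
/-- number of local classes -/
noncomputable def om (G : Matrix (Fin 4) (Fin 4) ℤ) (c : Fin 4 → ℤ) (l : ℕ) : ℕ :=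
  if kx G c l = 1 ∧ ¬ ((l : ℤ) ∣ G.det) ∧ ¬ IsSquare ((G.det : ℤ) : ZMod l) then 0 else kx G c l + 1

variable {G U : Matrix (Fin 4) (Fin 4) ℤ} {c : Fin 4 → ℤ}

theorem Dat.dl2 (h : Dat G c U) : D2 G c / 2 = (TF (Uᵀ * G * U)).dl := by
  unfold D2
  rw [← h.dl']
  simp

theorem Dat.mn (h : Dat G c U) {n : ℤ} (hm : (TF (Uᵀ * G * U)).mn n) : mnQ G c n := by
  intro u u' w w' h1 h2 h3 h4
  obtain ⟨a, rfl⟩ := h.pull h1
  obtain ⟨a', rfl⟩ := h.pull h2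
  obtain ⟨b, rfl⟩ := h.pull h3
  obtain ⟨b', rfl⟩ := h.pull h4
  rw [h.bf', h.bf', h.bf', h.bf']
  exact mn_minors hm a a' b b'

theorem pow_fact {D : ℤ} (hD : D ≠ 0) {l : ℕ} (hl : l.Prime) :
    (l : ℤ) ^ (D.natAbs.factorization l) ∣ D ∧ ¬ ((l : ℤ) ^ (D.natAbs.factorization l + 1) ∣ D) := by
  have hD' : D.natAbs ≠ 0 := Int.natAbs_ne_zero.mpr hD
  constructor
  · have := Nat.ordProj_dvd D.natAbs l
    rw [← Int.natCast_dvd_natCast, Nat.cast_pow] at this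
    exact this.trans (Int.natAbs_dvd.mpr dvd_rfl)
  · intro h
    have h2 : l ^ (D.natAbs.factorization l + 1) ∣ D.natAbs := by
      have := Int.natAbs_dvd_natAbs.mpr h
      rwa [Int.natAbs_pow, Int.natAbs_natCast] at this
    have := (hl.pow_dvd_iff_le_factorization hD').mp h2
    omega

theorem Dat.cls (h : Dat G c U) (hc : Pr4 c) (g : ℕ → ℕ) {l : ℕ} (hl : l.Prime)
    (hD : D2 G c / 2 ≠ 0) (hg : ¬ mnQ G c ((l : ℤ) ^ (g l + 1))) :
    (TF (Uᵀ * G * U)).CL ((l : ℤ) ^ (kx G c l - ls g l)) (om G c l) := by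
  classical
  set F := TF (Uᵀ * G * U) with hF
  have hD' : F.dl ≠ 0 := by rw [← h.dl2]; exact hD
  have hk := pow_fact hD' hl
  have hkx : F.dl.natAbs.factorization l = kx G c l := by rw [kx, h.dl2]
  rw [hkx] at hk
  unfold om
  split_ifs with hcond
  · obtain ⟨hk1, hdet, hsq⟩ := hcond
    refine CL_zero ?_ _
    intro v hv
    apply hsq
    haveI : Fact l.Prime := ⟨hl⟩
    -- v is not in the radical mod l
    have hnr : ¬ F.rad ((l : ℤ) ^ 1) v := by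
      intro hr
      have := rad_le hl hv.1 (hv.2 l hl) hr
      rw [hk1] at hk
      exact hk.2 (by simpa using this)
    simp only [Tf.rad, not_forall] at hnr
    obtain ⟨w, hw⟩ := hnr
    refine det_square G h.sym hdet c (U *ᵥ emb v) (U *ᵥ emb w) (hc l hl) ?_ (h.push v) (h.push w) ?_ ?_
    · have h1 : (l : ℤ) ∣ F.dl := by have := hk.1; rw [hk1, pow_one] at this; exact this
      have h2 : c ⬝ᵥ (G.adjugate *ᵥ c) = 2 * F.dl := h.dl'.symm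
      rw [h2]; exact Dvd.dvd.mul_left h1 _
    · rw [h.q', hv.1]; simp
    · rw [h.bf']; simpa using hw
  · exact locC g hl hk.1 (fun hm => hg (h.mn hm))

/-- all primes together: n0 = product of l^(k - ls) -/
theorem Dat.clsAll (h : Dat G c U) (hc : Pr4 c) (g : ℕ → ℕ) (hD : D2 G c / 2 ≠ 0)
    (hg : ∀ l : ℕ, l.Prime → (l : ℤ) ∣ D2 G c / 2 → ¬ mnQ G c ((l : ℤ) ^ (g l + 1))) :
    (TF (Uᵀ * G * U)).CL (∏ l ∈ (D2 G c / 2).natAbs.primeFactors, (l : ℤ) ^ (kx G c l - ls g l))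
      (∏ l ∈ (D2 G c / 2).natAbs.primeFactors, om G c l) := by
  refine CL_prod _ (fun l hl => Nat.prime_of_mem_primeFactors hl) _ _ ?_
  intro l hl
  have hlp := Nat.prime_of_mem_primeFactors hl
  refine h.cls hc g hlp hD (hg l hlp ?_)
  exact Int.natCast_dvd.mpr (Nat.dvd_of_mem_primeFactors hl)

/-- |Dl| <= n0 * prod l^(ls) -/
theorem n0_ge (g : ℕ → ℕ) (hD : D2 G c / 2 ≠ 0) :
    (D2 G c / 2).natAbs ≤ (∏ l ∈ (D2 G c / 2).natAbs.primeFactors, l ^ (kx G c l - ls g l))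
      * ∏ l ∈ (D2 G c / 2).natAbs.primeFactors, l ^ (ls g l) := by
  have hD' : (D2 G c / 2).natAbs ≠ 0 := Int.natAbs_ne_zero.mpr hD
  rw [← Finset.prod_mul_distrib]
  conv_lhs => rw [← Nat.prod_factorization_pow_eq_self hD']
  rw [Finsupp.prod, Nat.support_factorization]
  refine Finset.prod_le_prod' fun l hl => ?_
  rw [← pow_add]
  refine Nat.pow_le_pow_right (Nat.pos_of_mem_primeFactors hl) ?_
  unfold kx
  omega

end Pool.Agent.PP5B
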