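import Pool.Agent.PP5B.Fin

/-! PP5 (b): THE CONIC THEOREM for a quaternary form and a primitive linear form. -/

namespace Pool.Agent.PP5B

open Matrix

/-- product of the lost prime powers -/
noncomputable def gl (G : Matrix (Fin 4) (Fin 4) ℤ) (c : Fin 4 → ℤ) (g : ℕ → ℕ) : ℕ :=
  ∏ l ∈ (D2 G c / 2).natAbs.primeFactors, l ^ (ls g l)

/-- number of classes -/
noncomputable def omA (G : Matrix (Fin 4) (Fin 4) ℤ) (c : Fin 4 → ℤ) : ℕ :=
  ∏ l ∈ (D2 G c / 2).natAbs.primeFactors, om G c l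

theorem D2_even {G : Matrix (Fin 4) (Fin 4) ℤ} {c : Fin 4 → ℤ} {U : Matrix (Fin 4) (Fin 4) ℤ}
    (h : Dat G c U) : D2 G c = 2 * (TF (Uᵀ * G * U)).dl := h.dl'.symm

theorem cast_adj (G : Matrix (Fin 4) (Fin 4) ℤ) (c : Fin 4 → ℤ) :
    cvR c ⬝ᵥ ((toR G).adjugate *ᵥ cvR c) = (D2 G c : ℝ) := by
  have e : (toR G).adjugate = toR G.adjugate := by
    have := RingHom.map_adjugate (Int.castRingHom ℝ) G
    simpa [toR, RingHom.mapMatrix_apply] using this.symm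
  rw [e, toR_mulVec]
  simp [D2, cvR, dotProduct]

/-- THE CONIC THEOREM. -/
theorem conic (G : Matrix (Fin 4) (Fin 4) ℤ) (hsym : ∀ i j, G i j = G j i) (hev : ∀ i, 2 ∣ G i i)
    (hdet : G.det ≠ 0) (c : Fin 4 → ℤ) (hc : Pr4 c) (hD : D2 G c ≠ 0) (g : ℕ → ℕ)
    (hg : ∀ l : ℕ, l.Prime → (l : ℤ) ∣ D2 G c / 2 → ¬ mnQ G c ((l : ℤ) ^ (g l + 1)))
    (S : Finset (Fin 4 → ℤ)) (hS : ∀ v ∈ S, Pr4 v ∧ v ⬝ᵥ (G *ᵥ v) = 0 ∧ c ⬝ᵥ v = 0)
    (H Y Am : ℝ) (η : Fin 4 → ℝ) (hH0 : 0 ≤ H)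
    (hH : ∀ v ∈ S, ∀ w ∈ S, |((v ⬝ᵥ (G *ᵥ w) : ℤ) : ℝ)| ≤ H) (hY0 : 0 < Y)
    (hY : ∀ v ∈ S, |η ⬝ᵥ cvR v| ≤ Y) (hAm0 : Am ≠ 0)
    (hAm : Am * (G.det : ℝ) = (D2 G c : ℝ) * (η ⬝ᵥ ((toR G).adjugate *ᵥ η))
      - (cvR c ⬝ᵥ ((toR G).adjugate *ᵥ η)) ^ 2) :
    (S.card : ℝ) ≤ 2 * (omA G c : ℝ) * ((1 + 2 * Real.log (1 + H * |Am| / (Y ^ 2 * |(D2 G c : ℝ)|))) *
      (2 + 30 * Y * √((gl G c g : ℝ) / |Am|))) := by
  classical
  obtain ⟨U, hU1, hU2⟩ := ex_U c hc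
  have h : Dat G c U := ⟨hsym, hev, hU1, hU2⟩
  set F := TF (Uᵀ * G * U) with hF
  have hD2 := D2_even h
  rw [← hF] at hD2
  have hdl2 : D2 G c / 2 = F.dl := h.dl2
  have hdl : F.dl ≠ 0 := by
    intro h0; rw [h0, mul_zero] at hD2; exact hD hD2
  have hDh : D2 G c / 2 ≠ 0 := by rw [hdl2]; exact hdl
  -- classes
  have hCL := h.clsAll hc g hDh hg
  rw [← hF] at hCL
  set n0 : ℕ := ∏ l ∈ (D2 G c / 2).natAbs.primeFactors, l ^ (kx G c l - ls g l) with hn0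
  have hn0c : (∏ l ∈ (D2 G c / 2).natAbs.primeFactors, (l : ℤ) ^ (kx G c l - ls g l)) = (n0 : ℤ) := by
    rw [hn0]; push_cast; rfl
  rw [hn0c] at hCL
  have hn0p : 0 < n0 := Finset.prod_pos fun l hl => pow_pos (Nat.pos_of_mem_primeFactors hl) _
  have hge : (D2 G c / 2).natAbs ≤ n0 * gl G c g := n0_ge g hDh
  -- eta
  set e : ℝ × ℝ × ℝ := ((η ᵥ* toR U) 0, (η ᵥ* toR U) 1, (η ᵥ* toR U) 2) with he
  have hA : F.AR e = Am := eta_A h η Am hdet (by rw [cast_adj]; exact hAm)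
  have hAR : F.AR e ≠ 0 := by rw [hA]; exact hAm0
  -- pull back
  have hex : ∀ v ∈ S, ∃ w : V, v = U *ᵥ emb w := fun v hv => h.pull (hS v hv).2.2
  set φ : (Fin 4 → ℤ) → V := fun v => if hv : ∃ w : V, v = U *ᵥ emb w then hv.choose else 0 with hφ
  have hφs : ∀ v ∈ S, v = U *ᵥ emb (φ v) := by
    intro v hv
    have hv' := hex v hv
    have : φ v = hv'.choose := by simp only [hφ, dif_pos hv']
    rw [this]; exact hv'.choose_spec
  set T := S.image φ with hT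
  have hTc : T.card = S.card := by
    refine Finset.card_image_of_injOn ?_
    intro v hv w hw hvw
    rw [hφs v (Finset.mem_coe.mp hv), hφs w (Finset.mem_coe.mp hw), hvw]
  have hTm : ∀ w ∈ T, U *ᵥ emb w ∈ S := by
    intro w hw
    obtain ⟨v, hv, rfl⟩ := Finset.mem_image.mp hw
    rw [← hφs v hv]; exact hv
  have hZ : ∀ w ∈ T, F.Z w := by
    intro w hw
    have := hS _ (hTm w hw)
    refine ⟨?_, h.prim this.1⟩
    have h2 := this.2.1
    rw [h.q', ← hF] at h2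
    omega
  have hup : ∀ v ∈ T, ∀ w ∈ T, |(F.bf v w : ℝ)| ≤ H := by
    intro v hv w hw
    have := hH _ (hTm v hv) _ (hTm w hw)
    rwa [h.bf', ← hF] at this
  have hYT : ∀ v ∈ T, |evR e v| ≤ Y := by
    intro v hv
    have := hY _ (hTm v hv)
    rwa [eta_ev h] at this
  -- the bound for a part without antipodal pairs
  set B := (1 + 2 * Real.log (1 + H * |Am| / (Y ^ 2 * |(D2 G c : ℝ)|))) *
      (2 + 30 * Y * √((gl G c g : ℝ) / |Am|)) with hB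
  have hAp : 0 < |Am| := abs_pos.mpr hAm0
  have hdlp : 0 < |(F.dl : ℝ)| := abs_pos.mpr (by exact_mod_cast hdl)
  have hD2r : |(D2 G c : ℝ)| = 2 * |(F.dl : ℝ)| := by
    rw [hD2]; push_cast; rw [abs_mul]; norm_num
  have hn0r : (0 : ℝ) < n0 := by exact_mod_cast hn0p
  have hbound : (1 + 2 * Real.log (1 + H / (9 * Y ^ 2 * |(F.dl : ℝ)| / |F.AR e|))) *
      (2 + 4 * √(6 * (9 * Y ^ 2 * |(F.dl : ℝ)| / |F.AR e|) / n0)) ≤ B := by
    rw [hA, hB]
    have l1 : Real.log (1 + H / (9 * Y ^ 2 * |(F.dl : ℝ)| / |Am|))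
        ≤ Real.log (1 + H * |Am| / (Y ^ 2 * |(D2 G c : ℝ)|)) := by
      apply Real.log_le_log
      · positivity
      · rw [hD2r]
        have e1 : H / (9 * Y ^ 2 * |(F.dl : ℝ)| / |Am|) = H * |Am| / (9 * Y ^ 2 * |(F.dl : ℝ)|) := by
          field_simp
        rw [e1]
        have : H * |Am| / (9 * Y ^ 2 * |(F.dl : ℝ)|) ≤ H * |Am| / (Y ^ 2 * (2 * |(F.dl : ℝ)|)) := by
          apply div_le_div_of_nonneg_left (by positivity) (by positivity)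
          nlinarith [sq_nonneg Y, mul_nonneg (sq_nonneg Y) hdlp.le]
        linarith
    have l0 : 0 ≤ Real.log (1 + H / (9 * Y ^ 2 * |(F.dl : ℝ)| / |Am|)) :=
      Real.log_nonneg (by
        have : 0 ≤ H / (9 * Y ^ 2 * |(F.dl : ℝ)| / |Am|) := by positivity
        linarith)
    have l2 : 4 * √(6 * (9 * Y ^ 2 * |(F.dl : ℝ)| / |Am|) / n0) ≤ 30 * Y * √((gl G c g : ℝ) / |Am|) := by
      have k1 : |(F.dl : ℝ)| ≤ n0 * (gl G c g : ℝ) := by
        have h1 : ((D2 G c / 2).natAbs : ℝ) ≤ ((n0 * gl G c g : ℕ) : ℝ) := by exact_mod_cast hge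
        rw [hdl2] at h1
        have h2 : ((F.dl).natAbs : ℝ) = |(F.dl : ℝ)| := by
          rw [← Int.cast_abs, Int.abs_eq_natAbs]; simp
        rw [h2] at h1
        push_cast at h1
        exact h1
      have k2 : 6 * (9 * Y ^ 2 * |(F.dl : ℝ)| / |Am|) / n0 ≤ (15 / 2 * Y) ^ 2 * ((gl G c g : ℝ) / |Am|) := by
        have : 6 * (9 * Y ^ 2 * |(F.dl : ℝ)| / |Am|) / n0 = 54 * Y ^ 2 * (|(F.dl : ℝ)| / n0) / |Am| := by
          field_simp; ring
        rw [this]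
        have k3 : |(F.dl : ℝ)| / n0 ≤ (gl G c g : ℝ) := by
          rw [div_le_iff₀ hn0r]; linarith
        have k4 : (15 / 2 * Y) ^ 2 * ((gl G c g : ℝ) / |Am|) = (225 / 4) * Y ^ 2 * (gl G c g : ℝ) / |Am| := by
          ring
        rw [k4]
        apply div_le_div_of_nonneg_right _ hAp.le
        have hgp : (0 : ℝ) ≤ (gl G c g : ℝ) := Nat.cast_nonneg _
        nlinarith [sq_nonneg Y, mul_nonneg (sq_nonneg Y) hgp, mul_le_mul_of_nonneg_left k3 (sq_nonneg Y)]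
      have k5 : √(6 * (9 * Y ^ 2 * |(F.dl : ℝ)| / |Am|) / n0) ≤ 15 / 2 * Y * √((gl G c g : ℝ) / |Am|) := by
        calc _ ≤ √((15 / 2 * Y) ^ 2 * ((gl G c g : ℝ) / |Am|)) := Real.sqrt_le_sqrt k2
          _ = _ := by rw [Real.sqrt_mul (sq_nonneg _), Real.sqrt_sq (by positivity)]
      linarith
    have l3 := Real.sqrt_nonneg (6 * (9 * Y ^ 2 * |(F.dl : ℝ)| / |Am|) / n0)
    have l4 := Real.sqrt_nonneg ((gl G c g : ℝ) / |Am|)
    apply mul_le_mul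
    · linarith
    · linarith
    · positivity
    · linarith
  have part : ∀ T' : Finset V, T' ⊆ T → (∀ v ∈ T', ∀ w ∈ T', v ≠ -w) →
      (T'.card : ℝ) ≤ (omA G c : ℝ) * B := by
    intro T' hsub hpm
    have h1 := tern hdl hn0p hCL T' H Y hH0 hY0 e hAR (fun v hv => hZ v (hsub hv)) hpm
      (fun v hv w hw => hup v (hsub hv) w (hsub hw)) (fun v hv => hYT v (hsub hv))
    refine h1.trans ?_
    exact mul_le_mul_of_nonneg_left hbound (Nat.cast_nonneg _)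
  have p1 := part (T.filter pos) (Finset.filter_subset _ _) (by
    intro v hv w hw hvw
    rw [Finset.mem_filter] at hv hw
    rw [hvw] at hv
    exact pos_neg hw.2 hv.2)
  have p2 := part (T.filter (fun v => ¬ pos v)) (Finset.filter_subset _ _) (by
    intro v hv w hw hvw
    rw [Finset.mem_filter] at hv hw
    have := npos_neg (hZ w hw.1).2 hw.2
    rw [← hvw] at this
    exact hv.2 this)
  have hsum : (S.card : ℝ) = ((T.filter pos).card : ℝ) + ((T.filter (fun v => ¬ pos v)).card : ℝ) := by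
    rw [← hTc, ← Finset.card_filter_add_card_filter_not (s := T) pos]
    push_cast; rfl
  rw [hsum]
  calc _ ≤ (omA G c : ℝ) * B + (omA G c : ℝ) * B := add_le_add p1 p2
    _ = _ := by ring

end Pool.Agent.PP5B
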