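import Pool.Agent.PP5B.Idn

/-! PP5 (b): separated points and the count in a group of zeros with comparable polar values. -/

namespace Pool.Agent.PP5B

/-- separated points of an interval -/
theorem sep_count {α : Type*} (T : Finset α) (θ : α → ℝ) (R δ : ℝ) (hδ : 0 < δ)
    (hR : ∀ v ∈ T, |θ v| ≤ R) (hs : ∀ v ∈ T, ∀ w ∈ T, v ≠ w → δ ≤ |θ v - θ w|) (hR0 : 0 ≤ R) :
    (T.card : ℝ) ≤ 1 + 2 * (R / δ) := by
  classical
  have hinj : Set.InjOn (fun v => ⌊(θ v + R) / δ⌋₊) (T : Set α) := by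
    intro v hv w hw h
    by_contra hne
    have h1 := hs v hv w hw hne
    have a1 := abs_le.mp (hR v hv)
    have a2 := abs_le.mp (hR w hw)
    have p1 : 0 ≤ (θ v + R) / δ := div_nonneg (by linarith [a1.1]) hδ.le
    have p2 : 0 ≤ (θ w + R) / δ := div_nonneg (by linarith [a2.1]) hδ.le
    simp only at h
    have b1 := Nat.floor_le p1
    have b2 := Nat.lt_floor_add_one ((θ v + R) / δ)
    have b3 := Nat.floor_le p2
    have b4 := Nat.lt_floor_add_one ((θ w + R) / δ)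
    rw [h] at b1 b2
    have b5 : |(θ v + R) / δ - (θ w + R) / δ| < 1 := by
      rw [abs_lt]; constructor <;> linarith
    have b6 : (θ v + R) / δ - (θ w + R) / δ = (θ v - θ w) / δ := by ring
    rw [b6, abs_div, abs_of_pos hδ, div_lt_one hδ] at b5
    linarith
  have hmap : ∀ v ∈ T, ⌊(θ v + R) / δ⌋₊ ∈ Finset.range (⌊2 * (R / δ)⌋₊ + 1) := by
    intro v hv
    rw [Finset.mem_range, Nat.lt_succ_iff]
    apply Nat.floor_le_floor
    have a1 := abs_le.mp (hR v hv)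
    rw [← mul_div_assoc]
    gcongr
    linarith [a1.2]
  have h1 := Finset.card_le_card_of_injOn _ hmap hinj
  rw [Finset.card_range] at h1
  have h2 : (⌊2 * (R / δ)⌋₊ : ℝ) ≤ 2 * (R / δ) :=
    Nat.floor_le (by have := div_nonneg hR0 hδ.le; linarith)
  have h3 : (T.card : ℝ) ≤ (⌊2 * (R / δ)⌋₊ : ℝ) + 1 := by exact_mod_cast h1
  linarith

/-- one half of the points of a group -/
theorem half_count (F : Tf) (hd : F.dl ≠ 0) (T : Finset V) (u0 u1 : V) (n0 N1 : ℝ) (h0 : 0 < n0)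
    (q0 : F.q u0 = 0) (q1 : F.q u1 = 0) (hq : ∀ v ∈ T, F.q v = 0)
    (hh : F.bf u0 u1 ≠ 0) (hN : |(F.bf u0 u1 : ℝ)| ≤ N1)
    (hmax : ∀ v ∈ T, |(F.bf u0 v : ℝ)| ≤ |(F.bf u0 u1 : ℝ)|)
    (hhalf : ∀ v ∈ T, |(F.bf u1 v : ℝ)| ≤ |(F.bf u0 v : ℝ)|)
    (hne : ∀ v ∈ T, F.bf u0 v ≠ 0)
    (hlow : ∀ v ∈ T, ∀ w ∈ T, v ≠ w → n0 ≤ |(F.bf v w : ℝ)|) :
    (T.card : ℝ) ≤ 1 + 2 * √(N1 / n0) := by
  set D : ℝ := |(F.dl : ℝ)| with hD
  set hb : ℝ := |(F.bf u0 u1 : ℝ)| with hhb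
  have hDp : 0 < D := abs_pos.mpr (by exact_mod_cast hd)
  have hbp : 0 < hb := abs_pos.mpr (by exact_mod_cast hh)
  let θ : V → ℝ := fun v => (dt u0 u1 v : ℝ) / (F.bf u0 v : ℝ)
  have hR : ∀ v ∈ T, |θ v| ≤ √(hb / D) := by
    intro v hv
    have e1 : (F.bf u0 u1 : ℝ) * F.bf u0 v * F.bf u1 v = F.dl * (dt u0 u1 v : ℝ) ^ 2 := by
      exact_mod_cast idC F u0 u1 v q0 q1 (hq v hv)
    have ha : (F.bf u0 v : ℝ) ≠ 0 := by exact_mod_cast hne v hv
    have hap : 0 < |(F.bf u0 v : ℝ)| := abs_pos.mpr ha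
    apply Real.le_sqrt_of_sq_le
    show |(dt u0 u1 v : ℝ) / (F.bf u0 v : ℝ)| ^ 2 ≤ hb / D
    rw [abs_div, div_pow, div_le_div_iff₀ (by positivity) hDp]
    have e2 : |(F.dl : ℝ)| * |(dt u0 u1 v : ℝ)| ^ 2 = hb * |(F.bf u0 v : ℝ)| * |(F.bf u1 v : ℝ)| := by
      rw [← abs_pow, ← abs_mul, ← e1, abs_mul, abs_mul]
    calc |(dt u0 u1 v : ℝ)| ^ 2 * D = |(F.dl : ℝ)| * |(dt u0 u1 v : ℝ)| ^ 2 := by rw [hD]; ring
      _ = hb * |(F.bf u0 v : ℝ)| * |(F.bf u1 v : ℝ)| := e2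
      _ ≤ hb * |(F.bf u0 v : ℝ)| * |(F.bf u0 v : ℝ)| :=
          mul_le_mul_of_nonneg_left (hhalf v hv) (by positivity)
      _ = hb * |(F.bf u0 v : ℝ)| ^ 2 := by ring
  have hs : ∀ v ∈ T, ∀ w ∈ T, v ≠ w → √(n0 / D) ≤ |θ v - θ w| := by
    intro v hv w hw hvw
    have hav : (F.bf u0 v : ℝ) ≠ 0 := by exact_mod_cast hne v hv
    have haw : (F.bf u0 w : ℝ) ≠ 0 := by exact_mod_cast hne w hw
    have e1 : (F.bf u0 u1 : ℝ) * F.bf u0 v * F.bf u1 v = F.dl * (dt u0 u1 v : ℝ) ^ 2 := by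
      exact_mod_cast idC F u0 u1 v q0 q1 (hq v hv)
    have e2 : (F.bf u0 u1 : ℝ) * F.bf u0 w * F.bf u1 w = F.dl * (dt u0 u1 w : ℝ) ^ 2 := by
      exact_mod_cast idC F u0 u1 w q0 q1 (hq w hw)
    have e3 : (F.bf u0 u1 : ℝ) * (F.bf u0 v * F.bf u1 w + F.bf u1 v * F.bf u0 w
        - F.bf u0 u1 * F.bf v w) = 2 * F.dl * dt u0 u1 v * dt u0 u1 w := by
      exact_mod_cast idA F u0 u1 v w q0 q1
    have e4 : (F.bf u0 u1 : ℝ) ^ 2 * F.bf v w = F.dl * (F.bf u0 v * F.bf u0 w) *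
        (θ v - θ w) ^ 2 := by
      have : (F.bf u0 v : ℝ) * F.bf u0 w * ((F.bf u0 u1 : ℝ) ^ 2 * F.bf v w) =
          F.bf u0 v * F.bf u0 w * (F.dl * (F.bf u0 v * F.bf u0 w) * (θ v - θ w) ^ 2) := by
        have e5 : (F.bf u0 v : ℝ) * F.bf u0 w * (θ v - θ w) =
            dt u0 u1 v * F.bf u0 w - dt u0 u1 w * F.bf u0 v := by
          simp only [θ]; field_simp
        have e6 : (F.bf u0 v : ℝ) * F.bf u0 w * (F.dl * (F.bf u0 v * F.bf u0 w) * (θ v - θ w) ^ 2)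
            = F.dl * (F.bf u0 v * F.bf u0 w * (θ v - θ w)) ^ 2 := by ring
        rw [e6, e5]
        linear_combination (-(F.bf u0 v : ℝ) * F.bf u0 w) * e3 + (F.bf u0 w : ℝ) ^ 2 * e1
          + (F.bf u0 v : ℝ) ^ 2 * e2
      exact mul_left_cancel₀ (mul_ne_zero hav haw) this
    have e7 : hb ^ 2 * |(F.bf v w : ℝ)| = D * (|(F.bf u0 v : ℝ)| * |(F.bf u0 w : ℝ)|) *
        |θ v - θ w| ^ 2 := by
      have := congrArg abs e4
      rw [abs_mul, abs_mul, abs_mul, abs_mul, abs_pow, abs_pow] at this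
      exact this
    have e8 : hb ^ 2 * |(F.bf v w : ℝ)| ≤ D * (hb * hb) * |θ v - θ w| ^ 2 := by
      rw [e7]
      have := hmax v hv
      have := hmax w hw
      gcongr
    have e9 : |(F.bf v w : ℝ)| ≤ D * |θ v - θ w| ^ 2 := by
      have h5 : hb ^ 2 * |(F.bf v w : ℝ)| ≤ hb ^ 2 * (D * |θ v - θ w| ^ 2) := by
        calc _ ≤ D * (hb * hb) * |θ v - θ w| ^ 2 := e8
          _ = _ := by ring
      exact le_of_mul_le_mul_left h5 (by positivity)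
    have e10 : n0 / D ≤ |θ v - θ w| ^ 2 := by
      rw [div_le_iff₀ hDp]
      have := hlow v hv w hw hvw
      linarith
    calc √(n0 / D) ≤ √(|θ v - θ w| ^ 2) := Real.sqrt_le_sqrt e10
      _ = |θ v - θ w| := Real.sqrt_sq (abs_nonneg _)
  have h1 := sep_count T θ (√(hb / D)) (√(n0 / D)) (Real.sqrt_pos.mpr (by positivity)) hR hs
    (Real.sqrt_nonneg _)
  have h2 : √(hb / D) / √(n0 / D) ≤ √(N1 / n0) := by
    rw [← Real.sqrt_div (by positivity)]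
    apply Real.sqrt_le_sqrt
    have : hb / D / (n0 / D) = hb / n0 := by field_simp
    rw [this]
    gcongr
  linarith

/-- The count in a group. -/
theorem grp_count (F : Tf) (hd : F.dl ≠ 0) (S : Finset V) (n0 N1 : ℝ) (h0 : 0 < n0)
    (hq : ∀ v ∈ S, F.q v = 0)
    (hlow : ∀ v ∈ S, ∀ w ∈ S, v ≠ w → n0 ≤ |(F.bf v w : ℝ)|)
    (hup : ∀ v ∈ S, ∀ w ∈ S, |(F.bf v w : ℝ)| ≤ N1) :
    (S.card : ℝ) ≤ 2 + 4 * √(N1 / n0) := by
  classical
  have hsq := Real.sqrt_nonneg (N1 / n0)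
  by_cases hc : S.card ≤ 1
  · have : (S.card : ℝ) ≤ 1 := by exact_mod_cast hc
    linarith
  push Not at hc
  obtain ⟨x, hx, y, hy, hxy⟩ := Finset.one_lt_card.mp hc
  obtain ⟨p, hp, hpm⟩ := Finset.exists_max_image (S ×ˢ S) (fun p => |(F.bf p.1 p.2 : ℝ)|)
    ⟨(x, y), Finset.mem_product.mpr ⟨hx, hy⟩⟩
  obtain ⟨u0, u1⟩ := p
  rw [Finset.mem_product] at hp
  obtain ⟨hu0, hu1⟩ := hp
  simp only at hu0 hu1
  have hmax : ∀ v ∈ S, ∀ w ∈ S, |(F.bf v w : ℝ)| ≤ |(F.bf u0 u1 : ℝ)| := fun v hv w hw =>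
    hpm (v, w) (Finset.mem_product.mpr ⟨hv, hw⟩)
  have hpos : 0 < |(F.bf u0 u1 : ℝ)| := lt_of_lt_of_le h0 ((hlow x hx y hy hxy).trans
    (hmax x hx y hy))
  have hh : F.bf u0 u1 ≠ 0 := by
    intro h
    rw [h] at hpos
    simp at hpos
  have hself : ∀ v ∈ S, F.bf v v = 0 := by
    intro v hv
    rw [bf_self, hq v hv]; ring
  set T0 := S.filter (fun v => |(F.bf u1 v : ℝ)| ≤ |(F.bf u0 v : ℝ)|) with hT0
  set T1 := S.filter (fun v => ¬ |(F.bf u1 v : ℝ)| ≤ |(F.bf u0 v : ℝ)|) with hT1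
  have hcard : S.card = T0.card + T1.card := by
    rw [hT0, hT1, Finset.card_filter_add_card_filter_not]
  have c0 : (T0.card : ℝ) ≤ 1 + 2 * √(N1 / n0) := by
    refine half_count F hd T0 u0 u1 n0 N1 h0 (hq _ hu0) (hq _ hu1) ?_ hh (hup _ hu0 _ hu1) ?_ ?_ ?_ ?_
    · intro v hv; exact hq v (Finset.mem_filter.mp hv).1
    · intro v hv; exact hmax _ hu0 v (Finset.mem_filter.mp hv).1
    · intro v hv; exact (Finset.mem_filter.mp hv).2
    · intro v hv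
      have h1 := Finset.mem_filter.mp hv
      by_cases hv0 : u0 = v
      · exfalso
        subst hv0
        have h2 := h1.2
        rw [hself u0 hu0, bf_comm] at h2
        simp only [Int.cast_zero, abs_zero] at h2
        linarith
      · intro h
        have h3 := hlow u0 hu0 v h1.1 hv0
        rw [h] at h3
        simp at h3
        linarith
    · intro v hv w hw hvw
      exact hlow v (Finset.mem_filter.mp hv).1 w (Finset.mem_filter.mp hw).1 hvw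
  have c1 : (T1.card : ℝ) ≤ 1 + 2 * √(N1 / n0) := by
    have hh' : F.bf u1 u0 ≠ 0 := by rwa [bf_comm]
    refine half_count F hd T1 u1 u0 n0 N1 h0 (hq _ hu1) (hq _ hu0) ?_ hh' (hup _ hu1 _ hu0) ?_ ?_ ?_ ?_
    · intro v hv; exact hq v (Finset.mem_filter.mp hv).1
    · intro v hv
      rw [bf_comm F u1 u0]
      exact hmax _ hu1 v (Finset.mem_filter.mp hv).1
    · intro v hv; exact (not_le.mp (Finset.mem_filter.mp hv).2).le
    · intro v hv h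
      have h2 := not_le.mp (Finset.mem_filter.mp hv).2
      rw [h] at h2
      simp only [Int.cast_zero, abs_zero] at h2
      exact absurd h2 (not_lt.mpr (abs_nonneg _))
    · intro v hv w hw hvw
      exact hlow v (Finset.mem_filter.mp hv).1 w (Finset.mem_filter.mp hw).1 hvw
  have : (S.card : ℝ) = T0.card + T1.card := by exact_mod_cast hcard
  linarith

end Pool.Agent.PP5B
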