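import Pool.Agent.PP5B.Idn

/-! PP5 (b): the radical modulo prime powers is cyclic if some 2 x 2 minor is a unit. -/

namespace Pool.Agent.PP5B

theorem dv_cr_of_unit {p v w : V} {n : ℤ} (hp : IsCoprime p.1 n ∨ IsCoprime p.2.1 n ∨ IsCoprime p.2.2 n)
    (h1 : dv n (cr p v)) (h2 : dv n (cr p w)) : dv n (cr v w) := by
  obtain ⟨a1, a2, a3⟩ := h1
  obtain ⟨b1, b2, b3⟩ := h2
  simp only [cr] at a1 a2 a3 b1 b2 b3
  obtain ⟨p1, p2, p3⟩ := p
  obtain ⟨v1, v2, v3⟩ := v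
  obtain ⟨w1, w2, w3⟩ := w
  simp only at *
  have key : ∀ q : ℤ, IsCoprime q n → n ∣ q * (v2 * w3 - v3 * w2) → n ∣ q * (v3 * w1 - v1 * w3) →
      n ∣ q * (v1 * w2 - v2 * w1) → dv n (cr (v1, v2, v3) (w1, w2, w3)) := by
    intro q hq c1 c2 c3
    exact ⟨hq.symm.dvd_of_dvd_mul_left c1, hq.symm.dvd_of_dvd_mul_left c2,
      hq.symm.dvd_of_dvd_mul_left c3⟩
  rcases hp with h | h | h
  · refine key p1 h ?_ ?_ ?_
    · have e : p1 * (v2 * w3 - v3 * w2)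
          = w3 * (p1 * v2 - p2 * v1) + w2 * (p3 * v1 - p1 * v3) + v1 * (p2 * w3 - p3 * w2) := by ring
      rw [e]
      exact dvd_add (dvd_add (Dvd.dvd.mul_left a3 _) (Dvd.dvd.mul_left a2 _)) (Dvd.dvd.mul_left b1 _)
    · have e : p1 * (v3 * w1 - v1 * w3) = v1 * (p3 * w1 - p1 * w3) - w1 * (p3 * v1 - p1 * v3) := by ring
      rw [e]; exact dvd_sub (Dvd.dvd.mul_left b2 _) (Dvd.dvd.mul_left a2 _)
    · have e : p1 * (v1 * w2 - v2 * w1) = v1 * (p1 * w2 - p2 * w1) - w1 * (p1 * v2 - p2 * v1) := by ring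
      rw [e]; exact dvd_sub (Dvd.dvd.mul_left b3 _) (Dvd.dvd.mul_left a3 _)
  · refine key p2 h ?_ ?_ ?_
    · have e : p2 * (v2 * w3 - v3 * w2) = v2 * (p2 * w3 - p3 * w2) - w2 * (p2 * v3 - p3 * v2) := by ring
      rw [e]; exact dvd_sub (Dvd.dvd.mul_left b1 _) (Dvd.dvd.mul_left a1 _)
    · have e : p2 * (v3 * w1 - v1 * w3)
          = w1 * (p2 * v3 - p3 * v2) + w3 * (p1 * v2 - p2 * v1) + v2 * (p3 * w1 - p1 * w3) := by ring
      rw [e]
      exact dvd_add (dvd_add (Dvd.dvd.mul_left a1 _) (Dvd.dvd.mul_left a3 _)) (Dvd.dvd.mul_left b2 _)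
    · have e : p2 * (v1 * w2 - v2 * w1) = v2 * (p1 * w2 - p2 * w1) - w2 * (p1 * v2 - p2 * v1) := by ring
      rw [e]; exact dvd_sub (Dvd.dvd.mul_left b3 _) (Dvd.dvd.mul_left a3 _)
  · refine key p3 h ?_ ?_ ?_
    · have e : p3 * (v2 * w3 - v3 * w2) = v3 * (p2 * w3 - p3 * w2) - w3 * (p2 * v3 - p3 * v2) := by ring
      rw [e]; exact dvd_sub (Dvd.dvd.mul_left b1 _) (Dvd.dvd.mul_left a1 _)
    · have e : p3 * (v3 * w1 - v1 * w3) = v3 * (p3 * w1 - p1 * w3) - w3 * (p3 * v1 - p1 * v3) := by ring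
      rw [e]; exact dvd_sub (Dvd.dvd.mul_left b2 _) (Dvd.dvd.mul_left a2 _)
    · have e : p3 * (v1 * w2 - v2 * w1)
          = w2 * (p3 * v1 - p1 * v3) + w1 * (p2 * v3 - p3 * v2) + v3 * (p1 * w2 - p2 * w1) := by ring
      rw [e]
      exact dvd_add (dvd_add (Dvd.dvd.mul_left a2 _) (Dvd.dvd.mul_left a1 _)) (Dvd.dvd.mul_left b3 _)

/-- rows of the Gram matrix -/
def Tf.r1 (F : Tf) : V := (2 * F.a, F.f, F.e)
def Tf.r2 (F : Tf) : V := (F.f, 2 * F.b, F.d)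
def Tf.r3 (F : Tf) : V := (F.e, F.d, 2 * F.c)

theorem dv_cr_rows {F : Tf} {n : ℤ} {v : V} (h : F.rad n v) :
    dv n (cr (cr F.r1 F.r2) v) ∧ dv n (cr (cr F.r1 F.r3) v) ∧ dv n (cr (cr F.r2 F.r3) v) := by
  have h1 := h (1, 0, 0)
  have h2 := h (0, 1, 0)
  have h3 := h (0, 0, 1)
  obtain ⟨v1, v2, v3⟩ := v
  simp only [Tf.bf, mul_zero, mul_one, add_zero, zero_add] at h1 h2 h3
  have k1 : n ∣ 2 * F.a * v1 + F.f * v2 + F.e * v3 := by
    have e : 2 * F.a * v1 + F.f * v2 + F.e * v3 = 2 * F.a * v1 + F.e * v3 + F.f * v2 := by ring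
    rw [e]; simpa using h1
  have k2 : n ∣ F.f * v1 + 2 * F.b * v2 + F.d * v3 := by
    have e : F.f * v1 + 2 * F.b * v2 + F.d * v3 = 2 * F.b * v2 + F.d * v3 + F.f * v1 := by ring
    rw [e]; simpa using h2
  have k3 : n ∣ F.e * v1 + F.d * v2 + 2 * F.c * v3 := by
    have e : F.e * v1 + F.d * v2 + 2 * F.c * v3 = 2 * F.c * v3 + F.d * v2 + F.e * v1 := by ring
    rw [e]; simpa using h3
  have cross : ∀ r s : V, n ∣ r.1 * v1 + r.2.1 * v2 + r.2.2 * v3 →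
      n ∣ s.1 * v1 + s.2.1 * v2 + s.2.2 * v3 → dv n (cr (cr r s) (v1, v2, v3)) := by
    intro r s hr hs
    obtain ⟨a1, a2, a3⟩ := r
    obtain ⟨b1, b2, b3⟩ := s
    simp only at hr hs
    refine ⟨?_, ?_, ?_⟩
    · have e : (cr (cr (a1, a2, a3) (b1, b2, b3)) (v1, v2, v3)).1
          = b1 * (a1 * v1 + a2 * v2 + a3 * v3) - a1 * (b1 * v1 + b2 * v2 + b3 * v3) := by
        simp only [cr]; ring
      rw [e]; exact dvd_sub (Dvd.dvd.mul_left hr _) (Dvd.dvd.mul_left hs _)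
    · have e : (cr (cr (a1, a2, a3) (b1, b2, b3)) (v1, v2, v3)).2.1
          = b2 * (a1 * v1 + a2 * v2 + a3 * v3) - a2 * (b1 * v1 + b2 * v2 + b3 * v3) := by
        simp only [cr]; ring
      rw [e]; exact dvd_sub (Dvd.dvd.mul_left hr _) (Dvd.dvd.mul_left hs _)
    · have e : (cr (cr (a1, a2, a3) (b1, b2, b3)) (v1, v2, v3)).2.2
          = b3 * (a1 * v1 + a2 * v2 + a3 * v3) - a3 * (b1 * v1 + b2 * v2 + b3 * v3) := by
        simp only [cr]; ring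
      rw [e]; exact dvd_sub (Dvd.dvd.mul_left hr _) (Dvd.dvd.mul_left hs _)
  exact ⟨cross _ _ k1 k2, cross _ _ k1 k3, cross _ _ k2 k3⟩

/-- (a) the radical modulo l^s is cyclic in the good case. -/
theorem cyc {F : Tf} {l : ℕ} (hl : l.Prime) (hg : ¬ F.mn l) {s : ℕ} {v w : V}
    (hv : F.rad ((l : ℤ) ^ s) v) (hw : F.rad ((l : ℤ) ^ s) w) : dv ((l : ℤ) ^ s) (cr v w) := by
  have hv' := dv_cr_rows hv
  have hw' := dv_cr_rows hw
  have hcop : ∀ q : ℤ, ¬ ((l : ℤ) ∣ q) → IsCoprime q ((l : ℤ) ^ s) := by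
    intro q hq
    exact ((Nat.prime_iff_prime_int.mp hl).coprime_iff_not_dvd.mpr hq).symm.pow_right
  have hu : ∀ p : V, ¬ dv (l : ℤ) p →
      IsCoprime p.1 ((l : ℤ) ^ s) ∨ IsCoprime p.2.1 ((l : ℤ) ^ s) ∨ IsCoprime p.2.2 ((l : ℤ) ^ s) := by
    intro p hp
    by_contra hcon
    push Not at hcon
    apply hp
    refine ⟨?_, ?_, ?_⟩
    · by_contra h; exact hcon.1 (hcop _ h)
    · by_contra h; exact hcon.2.1 (hcop _ h)
    · by_contra h; exact hcon.2.2 (hcop _ h)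
  by_cases c12 : dv (l : ℤ) (cr F.r1 F.r2)
  · by_cases c13 : dv (l : ℤ) (cr F.r1 F.r3)
    · by_cases c23 : dv (l : ℤ) (cr F.r2 F.r3)
      · exfalso
        apply hg
        obtain ⟨x1, x2, x3⟩ := c12
        obtain ⟨y1, y2, y3⟩ := c13
        obtain ⟨z1, z2, z3⟩ := c23
        simp only [cr, Tf.r1, Tf.r2, Tf.r3] at x1 x2 x3 y1 y2 y3 z1 z2 z3
        refine ⟨?_, ?_, ?_, ?_, ?_, ?_⟩
        · have e : 4 * F.b * F.c - F.d ^ 2 = 2 * F.b * (2 * F.c) - F.d * F.d := by ring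
          rw [e]; exact z1
        · have e : 4 * F.a * F.c - F.e ^ 2 = -(F.e * F.e - 2 * F.a * (2 * F.c)) := by ring
          rw [e]; exact (dvd_neg).mpr y2
        · have e : 4 * F.a * F.b - F.f ^ 2 = 2 * F.a * (2 * F.b) - F.f * F.f := by ring
          rw [e]; exact x3
        · have e : F.d * F.e - 2 * F.c * F.f = F.d * F.e - F.f * (2 * F.c) := by ring
          rw [e]; exact z2
        · have e : F.d * F.f - 2 * F.b * F.e = F.f * F.d - F.e * (2 * F.b) := by ring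
          rw [e]; exact x1
        · have e : F.e * F.f - 2 * F.a * F.d = F.e * F.f - 2 * F.a * F.d := by ring
          rw [e]; exact x2
      · exact dv_cr_of_unit (hu _ c23) hv'.2.2 hw'.2.2
    · exact dv_cr_of_unit (hu _ c13) hv'.2.1 hw'.2.1
  · exact dv_cr_of_unit (hu _ c12) hv'.1 hw'.1

end Pool.Agent.PP5B
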