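import Mathlib

/-! PP5, section (b): integral ternary quadratic forms, their zeros, local classes. -/

namespace Pool.Agent.PP5B

/-- Integral ternary quadratic form a x^2 + b y^2 + c z^2 + d y z + e z x + f x y. -/
structure Tf where
  a : ℤ
  b : ℤ
  c : ℤ
  d : ℤ
  e : ℤ
  f : ℤ

/-- Integer vectors in dimension 3. -/
abbrev V := ℤ × ℤ × ℤ

/-- The value of the form. -/
def Tf.q (F : Tf) (v : V) : ℤ :=
  F.a * v.1 ^ 2 + F.b * v.2.1 ^ 2 + F.c * v.2.2 ^ 2 + F.d * v.2.1 * v.2.2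
    + F.e * v.2.2 * v.1 + F.f * v.1 * v.2.1

/-- The polar form. -/
def Tf.bf (F : Tf) (v w : V) : ℤ :=
  2 * F.a * v.1 * w.1 + 2 * F.b * v.2.1 * w.2.1 + 2 * F.c * v.2.2 * w.2.2
    + F.d * (v.2.1 * w.2.2 + v.2.2 * w.2.1) + F.e * (v.2.2 * w.1 + v.1 * w.2.2)
    + F.f * (v.1 * w.2.1 + v.2.1 * w.1)

/-- Half discriminant: half of the determinant of the Gram matrix of the polar form. -/
def Tf.dl (F : Tf) : ℤ :=
  4 * F.a * F.b * F.c + F.d * F.e * F.f - F.a * F.d ^ 2 - F.b * F.e ^ 2 - F.c * F.f ^ 2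

/-- Determinant of three vectors. -/
def dt (u v w : V) : ℤ :=
  u.1 * (v.2.1 * w.2.2 - v.2.2 * w.2.1) - u.2.1 * (v.1 * w.2.2 - v.2.2 * w.1)
    + u.2.2 * (v.1 * w.2.1 - v.2.1 * w.1)

/-- Cross product. -/
def cr (u v : V) : V :=
  (u.2.1 * v.2.2 - u.2.2 * v.2.1, u.2.2 * v.1 - u.1 * v.2.2, u.1 * v.2.1 - u.2.1 * v.1)

/-- The integer n divides the vector. -/
def dv (n : ℤ) (v : V) : Prop := n ∣ v.1 ∧ n ∣ v.2.1 ∧ n ∣ v.2.2

/-- Primitive vector: no prime divides all coordinates. -/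
def Pr (v : V) : Prop := ∀ p : ℕ, p.Prime → ¬ dv p v

/-- Primitive zero of the form. -/
def Tf.Z (F : Tf) (v : V) : Prop := F.q v = 0 ∧ Pr v

/-- n divides the linear form w -> B(v, w). -/
def Tf.rad (F : Tf) (n : ℤ) (v : V) : Prop := ∀ w : V, n ∣ F.bf v w

/-- n divides all the 2 x 2 minors of the Gram matrix (the nine minors, by symmetry six). -/
def Tf.mn (F : Tf) (n : ℤ) : Prop :=
  n ∣ 4 * F.b * F.c - F.d ^ 2 ∧ n ∣ 4 * F.a * F.c - F.e ^ 2 ∧ n ∣ 4 * F.a * F.b - F.f ^ 2 ∧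
  n ∣ F.d * F.e - 2 * F.c * F.f ∧ n ∣ F.d * F.f - 2 * F.b * F.e ∧ n ∣ F.e * F.f - 2 * F.a * F.d

/-- The primitive zeros fall into N classes, two zeros of the same class have n | B(v, w). -/
def Tf.CL (F : Tf) (n : ℤ) (N : ℕ) : Prop :=
  ∃ f : V → ℕ, ∀ v : V, F.Z v → f v < N ∧ ∀ w : V, F.Z w → f v = f w → n ∣ F.bf v w

end Pool.Agent.PP5B
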