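import Mathlib

/-! PP5 (b): Jacobi identity for the adjugate of a symmetric 4 x 4 matrix. -/

namespace Pool.Agent.PP5B

open Matrix

/-- generic symmetric matrix -/
def sy (a b c d e f g h i j : ℝ) : Matrix (Fin 4) (Fin 4) ℝ :=
  !![a, b, c, d; b, e, f, g; c, f, h, i; d, g, i, j]

theorem sy_det (a b c d e f g h i j : ℝ) : (sy a b c d e f g h i j).det =
    a * (e * (h * j - i * i) - f * (f * j - i * g) + g * (f * i - h * g))
    - b * (b * (h * j - i * i) - f * (c * j - i * d) + g * (c * i - h * d))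
    + c * (b * (f * j - i * g) - e * (c * j - i * d) + g * (c * g - f * d))
    - d * (b * (f * i - h * g) - e * (c * i - h * d) + f * (c * g - f * d)) := by
  unfold sy
  rw [Matrix.det_succ_row_zero]
  simp only [Fin.sum_univ_succ, Matrix.det_fin_three, Matrix.submatrix_apply]
  simp [Fin.succAbove]
  ring

theorem sy_adj (a b c d e f g h i j : ℝ) : (sy a b c d e f g h i j).adjugate =
    sy (e * (h * j - i * i) - f * (f * j - i * g) + g * (f * i - h * g))
       (-(b * (h * j - i * i) - f * (c * j - i * d) + g * (c * i - h * d)))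
       (b * (f * j - i * g) - e * (c * j - i * d) + g * (c * g - f * d))
       (-(b * (f * i - h * g) - e * (c * i - h * d) + f * (c * g - f * d)))
       (a * (h * j - i * i) - c * (c * j - i * d) + d * (c * i - h * d))
       (-(a * (f * j - i * g) - b * (c * j - i * d) + d * (c * g - f * d)))
       (a * (f * i - h * g) - b * (c * i - h * d) + c * (c * g - f * d))
       (a * (e * j - g * g) - b * (b * j - g * d) + d * (b * g - e * d))
       (-(a * (e * i - f * g) - b * (b * i - c * g) + d * (b * f - c * e)))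
       (a * (e * h - f * f) - b * (b * h - f * c) + c * (b * f - e * c)) := by
  unfold sy
  ext x y
  rw [Matrix.adjugate_fin_succ_eq_det_submatrix, Matrix.det_fin_three]
  fin_cases x <;> fin_cases y <;> simp [Fin.succAbove, Matrix.submatrix_apply] <;> ring

theorem expd (a b c d e f g h i j : ℝ) (y : Fin 4 → ℝ) :
    (sy a b c d e f g h i j) 3 3 * (y ⬝ᵥ ((sy a b c d e f g h i j) *ᵥ y))
      - (((sy a b c d e f g h i j) *ᵥ y) 3) ^ 2
      = y 0 ^ 2 * (j * a - d ^ 2) + y 1 ^ 2 * (j * e - g ^ 2) + y 2 ^ 2 * (j * h - i ^ 2)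
        + 2 * y 0 * y 1 * (j * b - d * g) + 2 * y 0 * y 2 * (j * c - d * i)
        + 2 * y 1 * y 2 * (j * f - g * i) := by
  simp [dotProduct, mulVec, Fin.sum_univ_succ, sy]
  ring

theorem jac (G : Matrix (Fin 4) (Fin 4) ℝ) (hG : ∀ i j, G i j = G j i) (y : Fin 4 → ℝ) :
    G.adjugate 3 3 * (y ⬝ᵥ (G.adjugate *ᵥ y)) - ((G.adjugate *ᵥ y) 3) ^ 2
      = G.det * (y 0 ^ 2 * (G 1 1 * G 2 2 - G 1 2 ^ 2) + y 1 ^ 2 * (G 0 0 * G 2 2 - G 0 2 ^ 2)
        + y 2 ^ 2 * (G 0 0 * G 1 1 - G 0 1 ^ 2)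
        + 2 * y 0 * y 1 * (G 1 2 * G 0 2 - G 2 2 * G 0 1)
        + 2 * y 0 * y 2 * (G 1 2 * G 0 1 - G 1 1 * G 0 2)
        + 2 * y 1 * y 2 * (G 0 2 * G 0 1 - G 0 0 * G 1 2)) := by
  have hs : G = sy (G 0 0) (G 0 1) (G 0 2) (G 0 3) (G 1 1) (G 1 2) (G 1 3) (G 2 2) (G 2 3) (G 3 3) := by
    ext i j
    fin_cases i <;> fin_cases j <;> simp [sy]
    · exact hG 1 0
    · exact hG 2 0
    · exact hG 2 1
    · exact hG 3 0
    · exact hG 3 1
    · exact hG 3 2
  rw [hs]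
  generalize G 0 0 = a, G 0 1 = b, G 0 2 = c, G 0 3 = d, G 1 1 = e, G 1 2 = f, G 1 3 = g, G 2 2 = h,
    G 2 3 = i, G 3 3 = j
  rw [sy_adj, sy_det, expd]
  have e1 : ∀ a b c d e f g h i j : ℝ, (sy a b c d e f g h i j) 1 1 = e := fun _ _ _ _ _ _ _ _ _ _ => rfl
  have e2 : ∀ a b c d e f g h i j : ℝ, (sy a b c d e f g h i j) 2 2 = h := fun _ _ _ _ _ _ _ _ _ _ => rfl
  have e3 : ∀ a b c d e f g h i j : ℝ, (sy a b c d e f g h i j) 1 2 = f := fun _ _ _ _ _ _ _ _ _ _ => rfl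
  have e4 : ∀ a b c d e f g h i j : ℝ, (sy a b c d e f g h i j) 0 0 = a := fun _ _ _ _ _ _ _ _ _ _ => rfl
  have e5 : ∀ a b c d e f g h i j : ℝ, (sy a b c d e f g h i j) 0 1 = b := fun _ _ _ _ _ _ _ _ _ _ => rfl
  have e6 : ∀ a b c d e f g h i j : ℝ, (sy a b c d e f g h i j) 0 2 = c := fun _ _ _ _ _ _ _ _ _ _ => rfl
  rw [e1, e2, e3, e4, e5, e6]
  ring

end Pool.Agent.PP5B
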