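import Pool.Agent.PP5B.Rea
import Pool.Agent.PP5B.Jac

/-! PP5 (b): a real linear form eta. -/

namespace Pool.Agent.PP5B

open Matrix

variable {G U : Matrix (Fin 4) (Fin 4) ℤ} {c : Fin 4 → ℤ}

theorem adj_tr (h : Dat G c U) (a b : Fin 4 → ℝ) :
    (a ᵥ* toR U) ⬝ᵥ ((toR (Uᵀ * G * U)).adjugate *ᵥ (b ᵥ* toR U))
      = a ⬝ᵥ ((toR G).adjugate *ᵥ b) := by
  have e : (toR (Uᵀ * G * U)).adjugate
      = (toR U).adjugate * (toR G).adjugate * ((toR U).adjugate)ᵀ := by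
    rw [toR_mul, toR_mul, toR_tr, Matrix.adjugate_mul_distrib, Matrix.adjugate_mul_distrib,
      Matrix.adjugate_transpose, Matrix.mul_assoc]
  have h1 : ((toR U).adjugate)ᵀ *ᵥ (b ᵥ* toR U) = (toR U).det • b := by
    rw [Matrix.mulVec_transpose, Matrix.vecMul_vecMul, Matrix.mul_adjugate, Matrix.vecMul_smul,
      Matrix.vecMul_one]
  have h2 : (a ᵥ* toR U) ᵥ* (toR U).adjugate = (toR U).det • a := by
    rw [Matrix.vecMul_vecMul, Matrix.mul_adjugate, Matrix.vecMul_smul, Matrix.vecMul_one]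
  rw [e, ← Matrix.mulVec_mulVec, h1, ← Matrix.mulVec_mulVec, dotProduct_mulVec, h2,
    Matrix.mulVec_smul, dotProduct_smul, smul_dotProduct, smul_smul, ← sq, detR h, one_smul]

theorem eta_A (h : Dat G c U) (η : Fin 4 → ℝ) (Am : ℝ) (hdet : G.det ≠ 0)
    (hAm : Am * (G.det : ℝ) = (cvR c ⬝ᵥ ((toR G).adjugate *ᵥ cvR c))
      * (η ⬝ᵥ ((toR G).adjugate *ᵥ η)) - (cvR c ⬝ᵥ ((toR G).adjugate *ᵥ η)) ^ 2) :
    (TF (Uᵀ * G * U)).AR ((η ᵥ* toR U) 0, (η ᵥ* toR U) 1, (η ᵥ* toR U) 2) = Am := by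
  set y := η ᵥ* toR U with hy
  set G' := Uᵀ * G * U with hG'
  have hs : ∀ i j, (toR G') i j = (toR G') j i := by
    intro i j
    simp only [toR, Matrix.map_apply]
    rw [hG', h.sym' i j]
  have hj := jac (toR G') hs y
  have e1 : (toR G').adjugate 3 3 = cvR c ⬝ᵥ ((toR G).adjugate *ᵥ cvR c) := by
    rw [← adj_tr h, row_R h]
    simp [dotProduct, mulVec, Fin.sum_univ_succ, ← hG']
  have e2 : y ⬝ᵥ ((toR G').adjugate *ᵥ y) = η ⬝ᵥ ((toR G).adjugate *ᵥ η) := by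
    rw [← adj_tr h]
  have e3 : ((toR G').adjugate *ᵥ y) 3 = cvR c ⬝ᵥ ((toR G).adjugate *ᵥ η) := by
    rw [← adj_tr h, row_R h]
    simp [dotProduct, Fin.sum_univ_succ, ← hG', ← hy]
  have e4 : (toR G').det = (G.det : ℝ) := by
    rw [hG', toR_mul, toR_mul, toR_tr, Matrix.det_mul, Matrix.det_mul, Matrix.det_transpose,
      toR_det G]
    have := detR h
    calc (toR U).det * (G.det : ℝ) * (toR U).det = (toR U).det ^ 2 * (G.det : ℝ) := by ring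
      _ = _ := by rw [this, one_mul]
  rw [e1, e2, e3, e4, ← hAm] at hj
  have hd : (G.det : ℝ) ≠ 0 := by exact_mod_cast hdet
  have hj2 : (G.det : ℝ) * Am = (G.det : ℝ) * (TF G').AR (y 0, y 1, y 2) := by
    rw [mul_comm, hj]
    congr 1
    obtain ⟨a, ha⟩ := h.ev' 0
    obtain ⟨b, hb⟩ := h.ev' 1
    obtain ⟨d, hd⟩ := h.ev' 2
    rw [← hG'] at ha hb hd
    have f1 : G' 0 0 / 2 = a := by rw [ha]; simp
    have f2 : G' 1 1 / 2 = b := by rw [hb]; simp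
    have f3 : G' 2 2 / 2 = d := by rw [hd]; simp
    simp only [TF, Tf.AR, f1, f2, f3]
    simp only [toR, Matrix.map_apply, ha, hb, hd]
    push_cast
    ring
  exact (mul_left_cancel₀ hd hj2).symm

theorem eta_ev (h : Dat G c U) (η : Fin 4 → ℝ) (w : V) :
    η ⬝ᵥ cvR (U *ᵥ emb w)
      = evR ((η ᵥ* toR U) 0, (η ᵥ* toR U) 1, (η ᵥ* toR U) 2) w := by
  rw [← toR_mulVec, dotProduct_mulVec]
  simp [dotProduct, Fin.sum_univ_succ, evR, cvR, emb]
  ring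

end Pool.Agent.PP5B
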