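import Pool.Agent.PP5B.GidR
import Pool.Agent.PP5B.Cnt

/-! PP5 (b): the real groups and the archimedean count. -/

namespace Pool.Agent.PP5B

theorem log_nat_le (x : ℝ) (hx : 0 ≤ x) : (Nat.log 2 ⌊x⌋₊ : ℝ) ≤ 2 * Real.log (1 + x) := by
  have h1 : 0 ≤ Real.log (1 + x) := Real.log_nonneg (by linarith)
  by_cases h : ⌊x⌋₊ = 0
  · rw [h]; simp; linarith
  have h2 : 2 ^ Nat.log 2 ⌊x⌋₊ ≤ ⌊x⌋₊ := Nat.pow_log_le_self 2 h
  have h3 : ((2 : ℝ) ^ Nat.log 2 ⌊x⌋₊) ≤ 1 + x := by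
    have : ((2 : ℝ) ^ Nat.log 2 ⌊x⌋₊) ≤ (⌊x⌋₊ : ℝ) := by exact_mod_cast h2
    have := Nat.floor_le hx
    linarith
  have h4 := Real.log_le_log (by positivity) h3
  rw [Real.log_pow] at h4
  have h5 := Real.log_two_gt_d9
  have h6 : (0 : ℝ) ≤ (Nat.log 2 ⌊x⌋₊ : ℝ) := Nat.cast_nonneg _
  nlinarith

/-- two values in the same dyadic group -/
theorem same_group (L0 a a' b' hb : ℝ) (hL : 0 < L0) (ha : 0 ≤ a) (ha' : 0 ≤ a') (hb' : 0 ≤ b')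
    (hbb : b' ≤ hb) (hs : a' * b' ≤ L0 * hb)
    (hidx : Nat.log 2 ⌊a / L0⌋₊ = Nat.log 2 ⌊a' / L0⌋₊) : a * b' ≤ 2 * L0 * hb := by
  have p1 : 0 ≤ a / L0 := div_nonneg ha hL.le
  have p2 : 0 ≤ a' / L0 := div_nonneg ha' hL.le
  have f1 := Nat.lt_floor_add_one (a / L0)
  have f2 := Nat.floor_le p2
  have g1 : ⌊a / L0⌋₊ < 2 ^ (Nat.log 2 ⌊a / L0⌋₊ + 1) := Nat.lt_pow_succ_log_self (by norm_num) _
  have g2 : a / L0 < 2 ^ (Nat.log 2 ⌊a / L0⌋₊ + 1) := by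
    have : (⌊a / L0⌋₊ : ℝ) + 1 ≤ 2 ^ (Nat.log 2 ⌊a / L0⌋₊ + 1) := by exact_mod_cast g1
    linarith
  by_cases h0 : ⌊a' / L0⌋₊ = 0
  · rw [h0, Nat.log_zero_right] at hidx
    rw [hidx] at g2
    have : a < 2 * L0 := by
      rw [div_lt_iff₀ hL] at g2
      norm_num at g2
      linarith
    calc a * b' ≤ (2 * L0) * hb := mul_le_mul this.le hbb hb' (by positivity)
      _ = _ := rfl
  · have g3 : 2 ^ Nat.log 2 ⌊a' / L0⌋₊ ≤ ⌊a' / L0⌋₊ := Nat.pow_log_le_self 2 h0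
    have g4 : ((2 : ℝ) ^ Nat.log 2 ⌊a' / L0⌋₊) ≤ a' / L0 := by
      have : ((2 : ℝ) ^ Nat.log 2 ⌊a' / L0⌋₊) ≤ (⌊a' / L0⌋₊ : ℝ) := by exact_mod_cast g3
      linarith
    rw [hidx, pow_succ] at g2
    have g5 : a / L0 ≤ 2 * (a' / L0) := by linarith
    have g6 : a ≤ 2 * a' := by
      have e : 2 * (a' / L0) = (2 * a') / L0 := by ring
      rw [e, div_le_div_iff_of_pos_right hL] at g5
      exact g5
    calc a * b' ≤ (2 * a') * b' := mul_le_mul_of_nonneg_right g6 hb'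
      _ = 2 * (a' * b') := by ring
      _ ≤ 2 * (L0 * hb) := by linarith
      _ = _ := by ring

/-- The archimedean count: `L0 = K ^ 2 * |dl|` with `K = 3 Y / sqrt |A h|`. -/
theorem grp (F : Tf) (hd : F.dl ≠ 0) (S : Finset V) (n0 H Y : ℝ) (h0 : 0 < n0) (hH0 : 0 ≤ H)
    (hY0 : 0 < Y)
    (h : ℝ × ℝ × ℝ) (hA : F.AR h ≠ 0) (hq : ∀ v ∈ S, F.q v = 0)
    (hlow : ∀ v ∈ S, ∀ w ∈ S, v ≠ w → n0 ≤ |(F.bf v w : ℝ)|)
    (hup : ∀ v ∈ S, ∀ w ∈ S, |(F.bf v w : ℝ)| ≤ H)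
    (hY : ∀ v ∈ S, |evR h v| ≤ Y) :
    (S.card : ℝ) ≤ (1 + 2 * Real.log (1 + H / (9 * Y ^ 2 * |(F.dl : ℝ)| / |F.AR h|))) *
      (2 + 4 * √(6 * (9 * Y ^ 2 * |(F.dl : ℝ)| / |F.AR h|) / n0)) := by
  classical
  set L0 : ℝ := 9 * Y ^ 2 * |(F.dl : ℝ)| / |F.AR h| with hL0
  have hDp : 0 < |(F.dl : ℝ)| := abs_pos.mpr (by exact_mod_cast hd)
  have hAp : 0 < |F.AR h| := abs_pos.mpr hA
  have hLp : 0 < L0 := by positivity
  have hsq := Real.sqrt_nonneg (6 * L0 / n0)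
  have hlog : 0 ≤ Real.log (1 + H / L0) := Real.log_nonneg (by
    have := div_nonneg hH0 hLp.le; linarith)
  by_cases hc : S.card ≤ 1
  · have h1 : (S.card : ℝ) ≤ 1 := by exact_mod_cast hc
    nlinarith
  push Not at hc
  obtain ⟨x, hx, y, hy, hxy⟩ := Finset.one_lt_card.mp hc
  obtain ⟨p, hp, hpm⟩ := Finset.exists_max_image (S ×ˢ S) (fun p => |(F.bf p.1 p.2 : ℝ)|)
    ⟨(x, y), Finset.mem_product.mpr ⟨hx, hy⟩⟩
  obtain ⟨u0, u1⟩ := p
  rw [Finset.mem_product] at hp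
  obtain ⟨hu0, hu1⟩ := hp
  simp only at hu0 hu1
  have hmax : ∀ v ∈ S, ∀ w ∈ S, |(F.bf v w : ℝ)| ≤ |(F.bf u0 u1 : ℝ)| := fun v hv w hw =>
    hpm (v, w) (Finset.mem_product.mpr ⟨hv, hw⟩)
  set hb : ℝ := |(F.bf u0 u1 : ℝ)| with hhb
  have hpos : 0 < hb := lt_of_lt_of_le h0 ((hlow x hx y hy hxy).trans (hmax x hx y hy))
  -- the star inequality
  have star : ∀ v ∈ S, |(F.dl : ℝ)| * (dt u0 u1 v : ℝ) ^ 2 ≤ L0 * hb ^ 2 := by
    intro v hv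
    have e1 : (dt u0 u1 v : ℝ) ^ 2 * F.AR h =
      2 * ((evR h v * F.bf u0 u1) * (evR h u0 * F.bf u1 v) +
        (evR h u0 * F.bf u1 v) * (evR h u1 * F.bf u0 v)
        + (evR h u1 * F.bf u0 v) * (evR h v * F.bf u0 u1))
      - (evR h v * F.bf u0 u1) ^ 2 - (evR h u0 * F.bf u1 v) ^ 2 - (evR h u1 * F.bf u0 v) ^ 2 :=
      g3R F h u0 u1 v (hq _ hu0) (hq _ hu1) (hq v hv)
    have b1 : |evR h v * F.bf u0 u1| ≤ Y * hb := by
      rw [abs_mul]; exact mul_le_mul (hY v hv) le_rfl (abs_nonneg _) hY0.le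
    have b2 : |evR h u0 * F.bf u1 v| ≤ Y * hb := by
      rw [abs_mul]; exact mul_le_mul (hY _ hu0) (hmax _ hu1 v hv) (abs_nonneg _) hY0.le
    have b3 : |evR h u1 * F.bf u0 v| ≤ Y * hb := by
      rw [abs_mul]; exact mul_le_mul (hY _ hu1) (hmax _ hu0 v hv) (abs_nonneg _) hY0.le
    have e2 : (dt u0 u1 v : ℝ) ^ 2 * |F.AR h| ≤ 9 * (Y * hb) ^ 2 := by
      have : (dt u0 u1 v : ℝ) ^ 2 * |F.AR h| = |(dt u0 u1 v : ℝ) ^ 2 * F.AR h| := by
        rw [abs_mul, abs_of_nonneg (sq_nonneg (dt u0 u1 v : ℝ))]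
      rw [this, e1]
      generalize evR h v * F.bf u0 u1 = X at b1 ⊢
      generalize evR h u0 * F.bf u1 v = Z at b2 ⊢
      generalize evR h u1 * F.bf u0 v = W at b3 ⊢
      generalize Y * hb = R at b1 b2 b3 ⊢
      rw [abs_le] at b1 b2 b3 ⊢
      constructor
      · nlinarith [sq_nonneg (X - Z), sq_nonneg (Z - W), sq_nonneg (W - X), sq_nonneg (X + Z),
          sq_nonneg (Z + W), sq_nonneg (W + X), mul_nonneg (sub_nonneg.mpr b1.2)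
          (by linarith [b1.1] : (0:ℝ) ≤ R + X), mul_nonneg (sub_nonneg.mpr b2.2)
          (by linarith [b2.1] : (0:ℝ) ≤ R + Z), mul_nonneg (sub_nonneg.mpr b3.2)
          (by linarith [b3.1] : (0:ℝ) ≤ R + W)]
      · nlinarith [sq_nonneg (X - Z), sq_nonneg (Z - W), sq_nonneg (W - X), sq_nonneg (X + Z),
          sq_nonneg (Z + W), sq_nonneg (W + X), mul_nonneg (sub_nonneg.mpr b1.2)
          (by linarith [b1.1] : (0:ℝ) ≤ R + X), mul_nonneg (sub_nonneg.mpr b2.2)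
          (by linarith [b2.1] : (0:ℝ) ≤ R + Z), mul_nonneg (sub_nonneg.mpr b3.2)
          (by linarith [b3.1] : (0:ℝ) ≤ R + W), sq_nonneg (X + Z + W)]
    have e3 : L0 * hb ^ 2 = |(F.dl : ℝ)| * (9 * (Y * hb) ^ 2 / |F.AR h|) := by
      rw [hL0]; ring
    rw [e3]
    apply mul_le_mul_of_nonneg_left _ (abs_nonneg _)
    rw [le_div_iff₀ hAp]
    exact e2
  have star2 : ∀ v ∈ S, |(F.bf u0 v : ℝ)| * |(F.bf u1 v : ℝ)| ≤ L0 * hb := by
    intro v hv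
    have e1 : (F.bf u0 u1 : ℝ) * F.bf u0 v * F.bf u1 v = F.dl * (dt u0 u1 v : ℝ) ^ 2 := by
      exact_mod_cast idC F u0 u1 v (hq _ hu0) (hq _ hu1) (hq v hv)
    have e2 : hb * (|(F.bf u0 v : ℝ)| * |(F.bf u1 v : ℝ)|) =
        |(F.dl : ℝ)| * (dt u0 u1 v : ℝ) ^ 2 := by
      have := congrArg abs e1
      rw [abs_mul, abs_mul, abs_mul, abs_of_nonneg (sq_nonneg (dt u0 u1 v : ℝ))] at this
      rw [← this]; ring
    have e3 := star v hv
    rw [← e2] at e3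
    have : hb * (|(F.bf u0 v : ℝ)| * |(F.bf u1 v : ℝ)|) ≤ hb * (L0 * hb) := by
      calc _ ≤ L0 * hb ^ 2 := e3
        _ = _ := by ring
    exact le_of_mul_le_mul_left this hpos
  -- the bound in a group
  let idx : V → ℕ := fun v => Nat.log 2 ⌊|(F.bf u0 v : ℝ)| / L0⌋₊
  have hgrp : ∀ v ∈ S, ∀ w ∈ S, idx v = idx w → |(F.bf v w : ℝ)| ≤ 6 * L0 := by
    intro v hv w hw hvw
    have c1 := same_group L0 |(F.bf u0 v : ℝ)| |(F.bf u0 w : ℝ)| |(F.bf u1 w : ℝ)| hb hLp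
      (abs_nonneg _) (abs_nonneg _) (abs_nonneg _) (hmax _ hu1 w hw) (star2 w hw) hvw
    have c2 := same_group L0 |(F.bf u0 w : ℝ)| |(F.bf u0 v : ℝ)| |(F.bf u1 v : ℝ)| hb hLp
      (abs_nonneg _) (abs_nonneg _) (abs_nonneg _) (hmax _ hu1 v hv) (star2 v hv) hvw.symm
    have c3 : |(F.dl : ℝ) * dt u0 u1 v * dt u0 u1 w| ≤ L0 * hb ^ 2 := by
      apply abs_le_of_sq_le_sq _ (by positivity)
      have : ((F.dl : ℝ) * dt u0 u1 v * dt u0 u1 w) ^ 2 =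
          (|(F.dl : ℝ)| * (dt u0 u1 v : ℝ) ^ 2) * (|(F.dl : ℝ)| * (dt u0 u1 w : ℝ) ^ 2) := by
        have := abs_mul_abs_self (F.dl : ℝ)
        calc _ = ((F.dl : ℝ) * F.dl) * ((dt u0 u1 v : ℝ) ^ 2 * (dt u0 u1 w : ℝ) ^ 2) := by ring
          _ = _ := by rw [← this]; ring
      rw [this]
      calc _ ≤ (L0 * hb ^ 2) * (L0 * hb ^ 2) :=
            mul_le_mul (star v hv) (star w hw) (by positivity) (by positivity)
        _ = _ := by ring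
    have e3 : (F.bf u0 u1 : ℝ) * (F.bf u0 v * F.bf u1 w + F.bf u1 v * F.bf u0 w
        - F.bf u0 u1 * F.bf v w) = 2 * F.dl * dt u0 u1 v * dt u0 u1 w := by
      exact_mod_cast idA F u0 u1 v w (hq _ hu0) (hq _ hu1)
    have e4 : (F.bf u0 u1 : ℝ) * F.bf u0 u1 * F.bf v w = (F.bf u0 u1 : ℝ) * F.bf u0 v * F.bf u1 w
        + (F.bf u0 u1 : ℝ) * F.bf u0 w * F.bf u1 v
        - 2 * ((F.dl : ℝ) * dt u0 u1 v * dt u0 u1 w) := by linarith [e3]
    have e5 : hb * hb * |(F.bf v w : ℝ)| ≤ hb * |(F.bf u0 v : ℝ)| * |(F.bf u1 w : ℝ)|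
        + hb * |(F.bf u0 w : ℝ)| * |(F.bf u1 v : ℝ)| + 2 * (L0 * hb ^ 2) := by
      have h1 := congrArg abs e4
      rw [abs_mul, abs_mul] at h1
      rw [← hhb] at h1
      rw [h1]
      refine (abs_sub _ _).trans ?_
      rw [abs_mul (2 : ℝ)]
      have h2 := abs_add_le ((F.bf u0 u1 : ℝ) * F.bf u0 v * F.bf u1 w)
        ((F.bf u0 u1 : ℝ) * F.bf u0 w * F.bf u1 v)
      rw [abs_mul, abs_mul, abs_mul, abs_mul, ← hhb] at h2
      have h3 : |(2 : ℝ)| = 2 := by norm_num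
      rw [h3]
      linarith
    have e6 : hb * hb * |(F.bf v w : ℝ)| ≤ hb * hb * (6 * L0) := by
      have d1 : hb * |(F.bf u0 v : ℝ)| * |(F.bf u1 w : ℝ)| ≤ hb * (2 * L0 * hb) := by
        rw [mul_assoc]; exact mul_le_mul_of_nonneg_left c1 hpos.le
      have d2 : hb * |(F.bf u0 w : ℝ)| * |(F.bf u1 v : ℝ)| ≤ hb * (2 * L0 * hb) := by
        rw [mul_assoc]; exact mul_le_mul_of_nonneg_left c2 hpos.le
      calc _ ≤ _ := e5
        _ ≤ hb * (2 * L0 * hb) + hb * (2 * L0 * hb) + 2 * (L0 * hb ^ 2) := by linarith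
        _ = _ := by ring
    exact le_of_mul_le_mul_left e6 (by positivity)
  -- the sum over the groups
  set J := Nat.log 2 ⌊H / L0⌋₊ with hJ
  have hmap : ∀ v ∈ S, idx v ∈ Finset.range (J + 1) := by
    intro v hv
    rw [Finset.mem_range, Nat.lt_succ_iff]
    apply Nat.log_mono_right
    apply Nat.floor_le_floor
    have := hup _ hu0 v hv
    gcongr
  have hcard : S.card = ∑ j ∈ Finset.range (J + 1), (S.filter (fun v => idx v = j)).card :=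
    Finset.card_eq_sum_card_fiberwise hmap
  have hfib : ∀ j ∈ Finset.range (J + 1), ((S.filter (fun v => idx v = j)).card : ℝ) ≤
      2 + 4 * √(6 * L0 / n0) := by
    intro j _
    apply grp_count F hd _ n0 (6 * L0) h0
    · intro v hv; exact hq v (Finset.mem_filter.mp hv).1
    · intro v hv w hw hvw
      exact hlow v (Finset.mem_filter.mp hv).1 w (Finset.mem_filter.mp hw).1 hvw
    · intro v hv w hw
      exact hgrp v (Finset.mem_filter.mp hv).1 w (Finset.mem_filter.mp hw).1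
        ((Finset.mem_filter.mp hv).2.trans (Finset.mem_filter.mp hw).2.symm)
  have h1 : (S.card : ℝ) ≤ (J + 1 : ℕ) * (2 + 4 * √(6 * L0 / n0)) := by
    rw [hcard]
    push_cast
    calc _ ≤ ∑ j ∈ Finset.range (J + 1), (2 + 4 * √(6 * L0 / n0)) := Finset.sum_le_sum hfib
      _ = _ := by rw [Finset.sum_const, Finset.card_range, nsmul_eq_mul]; push_cast; ring
  have h2 : ((J + 1 : ℕ) : ℝ) ≤ 1 + 2 * Real.log (1 + H / L0) := by
    have := log_nat_le (H / L0) (div_nonneg hH0 hLp.le)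
    push_cast
    linarith
  calc _ ≤ _ := h1
    _ ≤ _ := mul_le_mul_of_nonneg_right h2 (by positivity)

end Pool.Agent.PP5B
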