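import Pool.Agent.PP5B.Idn

/-! PP5 (b): two zeros with polar value zero are proportional; primitive proportional vectors. -/

namespace Pool.Agent.PP5B

/-- (I5) -/
theorem cr_of_bf_zero (F : Tf) (hd : F.dl ≠ 0) (v w : V) (hv : F.q v = 0) (hw : F.q w = 0)
    (h : F.bf v w = 0) : cr v w = 0 := by
  have key : ∀ x : V, dt v w x = 0 := by
    intro x
    have h1 := idB F v w x hv hw
    rw [h, zero_mul] at h1
    have h2 : dt v w x ^ 2 = 0 := by
      rcases mul_eq_zero.mp h1.symm with h3 | h3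
      · exact absurd h3 hd
      · exact h3
    exact pow_eq_zero_iff (two_ne_zero) |>.mp h2
  have k1 := key (1, 0, 0)
  have k2 := key (0, 1, 0)
  have k3 := key (0, 0, 1)
  simp only [dt] at k1 k2 k3
  simp only [cr]
  refine Prod.ext ?_ (Prod.ext ?_ ?_)
  · show v.2.1 * w.2.2 - v.2.2 * w.2.1 = 0
    linarith
  · show v.2.2 * w.1 - v.1 * w.2.2 = 0
    linarith
  · show v.1 * w.2.1 - v.2.1 * w.1 = 0
    linarith

end Pool.Agent.PP5B
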