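import Pool.Agent.PP5B.Eta
import Pool.Agent.PP5B.Nd
import Pool.Agent.PP5B.Grp

/-! PP5 (b): THE CONIC THEOREM. -/

namespace Pool.Agent.PP5B

open Matrix

/-- positive vector (lexicographic) -/
def pos (w : V) : Prop := 0 < w.1 ∨ (w.1 = 0 ∧ (0 < w.2.1 ∨ (w.2.1 = 0 ∧ 0 < w.2.2)))

theorem pos_neg {w : V} (h : pos w) : ¬ pos (-w) := by
  obtain ⟨a, b, c⟩ := w
  simp only [pos, Prod.fst_neg, Prod.snd_neg] at *
  omega

theorem npos_neg {w : V} (hw : Pr w) (h : ¬ pos w) : pos (-w) := by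
  obtain ⟨a, b, c⟩ := w
  have h0 : ¬ (a = 0 ∧ b = 0 ∧ c = 0) := by
    rintro ⟨rfl, rfl, rfl⟩
    exact hw 2 Nat.prime_two ⟨by simp, by simp, by simp⟩
  simp only [pos, Prod.fst_neg, Prod.snd_neg] at *
  omega

/-- ternary count with classes -/
theorem tern {F : Tf} (hd : F.dl ≠ 0) {n0 : ℕ} (hn0 : 0 < n0) {N : ℕ} (hCL : F.CL (n0 : ℤ) N)
    (S : Finset V) (H Y : ℝ) (hH0 : 0 ≤ H) (hY0 : 0 < Y) (h : ℝ × ℝ × ℝ) (hA : F.AR h ≠ 0)
    (hZ : ∀ v ∈ S, F.Z v) (hpm : ∀ v ∈ S, ∀ w ∈ S, v ≠ -w)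
    (hup : ∀ v ∈ S, ∀ w ∈ S, |(F.bf v w : ℝ)| ≤ H) (hY : ∀ v ∈ S, |evR h v| ≤ Y) :
    (S.card : ℝ) ≤ N * ((1 + 2 * Real.log (1 + H / (9 * Y ^ 2 * |(F.dl : ℝ)| / |F.AR h|))) *
      (2 + 4 * √(6 * (9 * Y ^ 2 * |(F.dl : ℝ)| / |F.AR h|) / n0))) := by
  classical
  obtain ⟨f, hf⟩ := hCL
  set B := (1 + 2 * Real.log (1 + H / (9 * Y ^ 2 * |(F.dl : ℝ)| / |F.AR h|))) *
      (2 + 4 * √(6 * (9 * Y ^ 2 * |(F.dl : ℝ)| / |F.AR h|) / n0)) with hB
  have hfib : ∀ i ∈ Finset.range N, ((S.filter (fun v => f v = i)).card : ℝ) ≤ B := by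
    intro i _
    refine grp F hd _ n0 H Y (by exact_mod_cast hn0) hH0 hY0 h hA ?_ ?_ ?_ ?_
    · intro v hv; exact (hZ v (Finset.mem_filter.mp hv).1).1
    · intro v hv w hw hvw
      rw [Finset.mem_filter] at hv hw
      have zv := hZ v hv.1
      have zw := hZ w hw.1
      have hdvd := (hf v zv).2 w zw (hv.2.trans hw.2.symm)
      have hne : F.bf v w ≠ 0 := by
        intro h0
        have hcr := cr_of_bf_zero F hd v w zv.1 zw.1 h0
        rcases cr_zero zv.2 zw.2 hcr with h1 | h1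
        · exact hvw h1
        · exact hpm v hv.1 w hw.1 h1
      have hle := Int.le_of_dvd (abs_pos.mpr hne) ((dvd_abs _ _).mpr hdvd)
      exact_mod_cast hle
    · intro v hv w hw
      exact hup v (Finset.mem_filter.mp hv).1 w (Finset.mem_filter.mp hw).1
    · intro v hv; exact hY v (Finset.mem_filter.mp hv).1
  have hcard : S.card = ∑ i ∈ Finset.range N, (S.filter (fun v => f v = i)).card :=
    Finset.card_eq_sum_card_fiberwise (fun v hv => Finset.mem_coe.mpr (Finset.mem_range.mpr (hf v (hZ v hv)).1))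
  calc (S.card : ℝ) = ∑ i ∈ Finset.range N, ((S.filter (fun v => f v = i)).card : ℝ) := by
        rw [hcard]; push_cast; rfl
    _ ≤ ∑ _i ∈ Finset.range N, B := Finset.sum_le_sum hfib
    _ = N * B := by simp

end Pool.Agent.PP5B
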