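import Pool.Agent.PP5B.Idn

/-! PP5 (b): the adjoint form and the identity (G3). -/

namespace Pool.Agent.PP5B

/-- The value of the linear form `h` at `v`. -/
def ev (h v : V) : ℤ := h.1 * v.1 + h.2.1 * v.2.1 + h.2.2 * v.2.2

/-- The adjoint of the Gram matrix, as a quadratic form on linear forms. -/
def Tf.A (F : Tf) (h : V) : ℤ :=
  (4 * F.b * F.c - F.d ^ 2) * h.1 ^ 2 + (4 * F.a * F.c - F.e ^ 2) * h.2.1 ^ 2
    + (4 * F.a * F.b - F.f ^ 2) * h.2.2 ^ 2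
    + 2 * ((F.d * F.e - 2 * F.c * F.f) * (h.1 * h.2.1)
      + (F.d * F.f - 2 * F.b * F.e) * (h.1 * h.2.2)
      + (F.e * F.f - 2 * F.a * F.d) * (h.2.1 * h.2.2))

/-- The polar bilinear form of `Tf.A` divided by two. -/
def Tf.Ab (F : Tf) (h g : V) : ℤ :=
  (4 * F.b * F.c - F.d ^ 2) * (h.1 * g.1) + (4 * F.a * F.c - F.e ^ 2) * (h.2.1 * g.2.1)
    + (4 * F.a * F.b - F.f ^ 2) * (h.2.2 * g.2.2)
    + ((F.d * F.e - 2 * F.c * F.f) * (h.1 * g.2.1 + g.1 * h.2.1)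
      + (F.d * F.f - 2 * F.b * F.e) * (h.1 * g.2.2 + g.1 * h.2.2)
      + (F.e * F.f - 2 * F.a * F.d) * (h.2.1 * g.2.2 + g.2.1 * h.2.2))

theorem A_cr (F : Tf) (u v : V) : F.A (cr u v) = 4 * F.q u * F.q v - F.bf u v ^ 2 := by
  simp only [Tf.A, Tf.q, Tf.bf, cr]; ring

theorem Ab_cr (F : Tf) (u v w x : V) :
    F.Ab (cr u v) (cr w x) = F.bf u w * F.bf v x - F.bf u x * F.bf v w := by
  simp only [Tf.Ab, Tf.bf, cr]; ring

/-- the value of the adjoint form on a combination of three vectors -/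
theorem A_comb (F : Tf) (x y z : ℤ) (h g k : V) :
    F.A (x * h.1 + y * g.1 + z * k.1, x * h.2.1 + y * g.2.1 + z * k.2.1,
      x * h.2.2 + y * g.2.2 + z * k.2.2) =
      x ^ 2 * F.A h + y ^ 2 * F.A g + z ^ 2 * F.A k
        + 2 * (x * y * F.Ab h g + x * z * F.Ab h k + y * z * F.Ab g k) := by
  simp only [Tf.A, Tf.Ab]; ring

theorem A_smul (F : Tf) (t : ℤ) (h : V) : F.A (t * h.1, t * h.2.1, t * h.2.2) = t ^ 2 * F.A h := by
  simp only [Tf.A]; ring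

/-- Cramer's rule for linear forms. -/
theorem cramer (h u v w : V) :
    (dt u v w * h.1, dt u v w * h.2.1, dt u v w * h.2.2) =
      (ev h w * (cr u v).1 + ev h u * (cr v w).1 + ev h v * (cr w u).1,
        ev h w * (cr u v).2.1 + ev h u * (cr v w).2.1 + ev h v * (cr w u).2.1,
        ev h w * (cr u v).2.2 + ev h u * (cr v w).2.2 + ev h v * (cr w u).2.2) := by
  simp only [dt, ev, cr, Prod.mk.injEq]
  refine ⟨?_, ?_, ?_⟩ <;> ring

/-- (G3) -/
theorem g3 (F : Tf) (h u v w : V) (hu : F.q u = 0) (hv : F.q v = 0) (hw : F.q w = 0) :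
    dt u v w ^ 2 * F.A h =
      2 * ((ev h w * F.bf u v) * (ev h u * F.bf v w) + (ev h u * F.bf v w) * (ev h v * F.bf u w)
        + (ev h v * F.bf u w) * (ev h w * F.bf u v))
      - (ev h w * F.bf u v) ^ 2 - (ev h u * F.bf v w) ^ 2 - (ev h v * F.bf u w) ^ 2 := by
  rw [← A_smul, cramer, A_comb]
  simp only [A_cr, Ab_cr, hu, hv, hw, bf_self, bf_comm F v u, bf_comm F w u, bf_comm F w v]
  ring

end Pool.Agent.PP5B
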