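import Pool.Agent.PP5B.Gid

/-! PP5 (b): the identity (G3) for a real linear form. -/

namespace Pool.Agent.PP5B

/-- The value of the real linear form `h` at `v`. -/
def evR (h : ℝ × ℝ × ℝ) (v : V) : ℝ := h.1 * v.1 + h.2.1 * v.2.1 + h.2.2 * v.2.2

/-- The adjoint of the Gram matrix, as a quadratic form on real linear forms. -/
def Tf.AR (F : Tf) (h : ℝ × ℝ × ℝ) : ℝ :=
  (4 * F.b * F.c - F.d ^ 2) * h.1 ^ 2 + (4 * F.a * F.c - F.e ^ 2) * h.2.1 ^ 2
    + (4 * F.a * F.b - F.f ^ 2) * h.2.2 ^ 2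
    + 2 * ((F.d * F.e - 2 * F.c * F.f) * (h.1 * h.2.1)
      + (F.d * F.f - 2 * F.b * F.e) * (h.1 * h.2.2)
      + (F.e * F.f - 2 * F.a * F.d) * (h.2.1 * h.2.2))

/-- (G3) for a real linear form -/
theorem g3R (F : Tf) (h : ℝ × ℝ × ℝ) (u v w : V) (hu : F.q u = 0) (hv : F.q v = 0)
    (hw : F.q w = 0) :
    (dt u v w : ℝ) ^ 2 * F.AR h =
      2 * ((evR h w * F.bf u v) * (evR h u * F.bf v w)
        + (evR h u * F.bf v w) * (evR h v * F.bf u w)
        + (evR h v * F.bf u w) * (evR h w * F.bf u v))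
      - (evR h w * F.bf u v) ^ 2 - (evR h u * F.bf v w) ^ 2 - (evR h v * F.bf u w) ^ 2 := by
  -- the values of the adjoint form at the cross products
  have a1 : (F.A (cr u v) : ℝ) = -(F.bf u v : ℝ) ^ 2 := by
    have : F.A (cr u v) = -F.bf u v ^ 2 := by rw [A_cr, hu, hv]; ring
    exact_mod_cast this
  have a2 : (F.A (cr v w) : ℝ) = -(F.bf v w : ℝ) ^ 2 := by
    have : F.A (cr v w) = -F.bf v w ^ 2 := by rw [A_cr, hv, hw]; ring
    exact_mod_cast this
  have a3 : (F.A (cr w u) : ℝ) = -(F.bf u w : ℝ) ^ 2 := by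
    have : F.A (cr w u) = -F.bf u w ^ 2 := by rw [A_cr, hw, hu, bf_comm F w u]; ring
    exact_mod_cast this
  have b1 : (F.Ab (cr u v) (cr v w) : ℝ) = F.bf u v * F.bf v w := by
    have : F.Ab (cr u v) (cr v w) = F.bf u v * F.bf v w := by
      rw [Ab_cr, bf_self F v, hv]; ring
    exact_mod_cast this
  have b2 : (F.Ab (cr u v) (cr w u) : ℝ) = F.bf u w * F.bf u v := by
    have : F.Ab (cr u v) (cr w u) = F.bf u w * F.bf u v := by
      rw [Ab_cr, bf_self F u, hu, bf_comm F v u]; ring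
    exact_mod_cast this
  have b3 : (F.Ab (cr v w) (cr w u) : ℝ) = F.bf v w * F.bf u w := by
    have : F.Ab (cr v w) (cr w u) = F.bf v w * F.bf u w := by
      rw [Ab_cr, bf_self F w, hw, bf_comm F w u]; ring
    exact_mod_cast this
  have key : (dt u v w : ℝ) ^ 2 * F.AR h =
      evR h w ^ 2 * F.A (cr u v) + evR h u ^ 2 * F.A (cr v w) + evR h v ^ 2 * F.A (cr w u)
        + 2 * (evR h w * evR h u * F.Ab (cr u v) (cr v w)
          + evR h w * evR h v * F.Ab (cr u v) (cr w u)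
          + evR h u * evR h v * F.Ab (cr v w) (cr w u)) := by
    have c1 : (dt u v w : ℝ) * h.1 = evR h w * (cr u v).1 + evR h u * (cr v w).1
        + evR h v * (cr w u).1 := by
      simp only [dt, evR, cr]; push_cast; ring
    have c2 : (dt u v w : ℝ) * h.2.1 = evR h w * (cr u v).2.1 + evR h u * (cr v w).2.1
        + evR h v * (cr w u).2.1 := by
      simp only [dt, evR, cr]; push_cast; ring
    have c3 : (dt u v w : ℝ) * h.2.2 = evR h w * (cr u v).2.2 + evR h u * (cr v w).2.2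
        + evR h v * (cr w u).2.2 := by
      simp only [dt, evR, cr]; push_cast; ring
    have d0 : (dt u v w : ℝ) ^ 2 * F.AR h = (4 * F.b * F.c - F.d ^ 2) * (dt u v w * h.1) ^ 2
        + (4 * F.a * F.c - F.e ^ 2) * (dt u v w * h.2.1) ^ 2
        + (4 * F.a * F.b - F.f ^ 2) * (dt u v w * h.2.2) ^ 2
        + 2 * ((F.d * F.e - 2 * F.c * F.f) * ((dt u v w * h.1) * (dt u v w * h.2.1))
          + (F.d * F.f - 2 * F.b * F.e) * ((dt u v w * h.1) * (dt u v w * h.2.2))
          + (F.e * F.f - 2 * F.a * F.d) * ((dt u v w * h.2.1) * (dt u v w * h.2.2))) := by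
      simp only [Tf.AR]; ring
    rw [d0, c1, c2, c3]
    generalize evR h w = x
    generalize evR h u = y
    generalize evR h v = z
    simp only [Tf.A, Tf.Ab]
    push_cast
    generalize ((cr u v).1 : ℝ) = p1
    generalize ((cr u v).2.1 : ℝ) = p2
    generalize ((cr u v).2.2 : ℝ) = p3
    generalize ((cr v w).1 : ℝ) = q1
    generalize ((cr v w).2.1 : ℝ) = q2
    generalize ((cr v w).2.2 : ℝ) = q3
    generalize ((cr w u).1 : ℝ) = r1
    generalize ((cr w u).2.1 : ℝ) = r2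
    generalize ((cr w u).2.2 : ℝ) = r3
    ring
  rw [key, a1, a2, a3, b1, b2, b3]
  ring

end Pool.Agent.PP5B
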