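import Pool.Agent.PP5B.Def

/-! PP5 (b): polynomial identities. -/

namespace Pool.Agent.PP5B

theorem bf_comm (F : Tf) (v w : V) : F.bf v w = F.bf w v := by
  simp only [Tf.bf]; ring

theorem bf_add (F : Tf) (v w u : V) : F.bf v (w + u) = F.bf v w + F.bf v u := by
  simp only [Tf.bf, Prod.fst_add, Prod.snd_add]; ring

theorem bf_self (F : Tf) (v : V) : F.bf v v = 2 * F.q v := by
  simp only [Tf.bf, Tf.q]; ring

theorem q_add (F : Tf) (v w : V) : F.q (v + w) = F.q v + F.q w + F.bf v w := by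
  simp only [Tf.bf, Tf.q, Prod.fst_add, Prod.snd_add]; ring

/-- Gram determinant of v1, v2, w (general). -/
theorem gram3 (F : Tf) (u v w : V) :
    2 * F.q u * (2 * F.q v * (2 * F.q w) - F.bf v w ^ 2)
      - F.bf u v * (F.bf u v * (2 * F.q w) - F.bf v w * F.bf u w)
      + F.bf u w * (F.bf u v * F.bf v w - 2 * F.q v * F.bf u w)
      = 2 * F.dl * dt u v w ^ 2 := by
  simp only [Tf.bf, Tf.q, Tf.dl, dt]; ring

/-- (I1) -/
theorem idA (F : Tf) (u v w x : V) (hu : F.q u = 0) (hv : F.q v = 0) :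
    F.bf u v * (F.bf u w * F.bf v x + F.bf v w * F.bf u x - F.bf u v * F.bf w x)
      = 2 * F.dl * dt u v w * dt u v x := by
  have h : F.bf u v * (F.bf u w * F.bf v x + F.bf v w * F.bf u x - F.bf u v * F.bf w x)
      = 2 * F.dl * dt u v w * dt u v x
        - (4 * F.q u * F.q v * F.bf w x - 2 * F.q u * F.bf v w * F.bf v x
            - 2 * F.q v * F.bf u w * F.bf u x) := by
    simp only [Tf.bf, Tf.q, Tf.dl, dt]; ring
  rw [h, hu, hv]; ring

/-- (I2) -/
theorem idB (F : Tf) (u v w : V) (hu : F.q u = 0) (hv : F.q v = 0) :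
    F.bf u v * (F.bf u w * F.bf v w - F.bf u v * F.q w) = F.dl * dt u v w ^ 2 := by
  have h := gram3 F u v w
  rw [hu, hv] at h
  linarith [h, show (2:ℤ) * (F.bf u v * (F.bf u w * F.bf v w - F.bf u v * F.q w))
    = 2 * 0 * (2 * 0 * (2 * F.q w) - F.bf v w ^ 2)
      - F.bf u v * (F.bf u v * (2 * F.q w) - F.bf v w * F.bf u w)
      + F.bf u w * (F.bf u v * F.bf v w - 2 * 0 * F.bf u w) by ring]

/-- (I3) -/
theorem idC (F : Tf) (u v w : V) (hu : F.q u = 0) (hv : F.q v = 0) (hw : F.q w = 0) :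
    F.bf u v * F.bf u w * F.bf v w = F.dl * dt u v w ^ 2 := by
  have h := idB F u v w hu hv
  rw [hw] at h
  linarith [h, show F.bf u v * (F.bf u w * F.bf v w - F.bf u v * 0)
    = F.bf u v * F.bf u w * F.bf v w by ring]

/-- (I4) -/
theorem idD (F : Tf) (v w x : V) (hv : F.q v = 0) :
    F.dl * dt v w x ^ 2
      = F.bf v w * F.bf v x * F.bf w x - F.bf v w ^ 2 * F.q x - F.bf v x ^ 2 * F.q w := by
  have h := gram3 F v w x
  rw [hv] at h
  linarith [h, show (2:ℤ) * (F.bf v w * F.bf v x * F.bf w x - F.bf v w ^ 2 * F.q x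
      - F.bf v x ^ 2 * F.q w)
    = 2 * 0 * (2 * F.q w * (2 * F.q x) - F.bf w x ^ 2)
      - F.bf v w * (F.bf v w * (2 * F.q x) - F.bf w x * F.bf v x)
      + F.bf v x * (F.bf v w * F.bf w x - 2 * F.q w * F.bf v x) by ring]

end Pool.Agent.PP5B
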