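import Pool.Agent.PP5B.Gid

/-! PP5 (b): local classes at a prime, every case. -/

namespace Pool.Agent.PP5B

theorem pow_dvd_right {l : ℕ} (hl : l.Prime) (α : ℕ) : ∀ (s : ℕ) (x y : ℤ), α ≤ s →
    (l : ℤ) ^ s ∣ x * y → ¬ (l : ℤ) ^ (α + 1) ∣ x → (l : ℤ) ^ (s - α) ∣ y := by
  have hp : Prime (l : ℤ) := Nat.prime_iff_prime_int.mp hl
  have h0 : (l : ℤ) ≠ 0 := hp.ne_zero
  induction α with
  | zero =>
    intro s x y _ h1 h2
    simp only [zero_add, pow_one] at h2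
    simpa using hp.pow_dvd_of_dvd_mul_left s h2 h1
  | succ α ih =>
    intro s x y h3 h1 h2
    by_cases hx : (l : ℤ) ∣ x
    · obtain ⟨x', rfl⟩ := hx
      obtain ⟨t, rfl⟩ : ∃ t, s = t + 1 := ⟨s - 1, by omega⟩
      have h4 : (l : ℤ) ^ t ∣ x' * y := by
        rw [pow_succ, mul_comm ((l : ℤ) ^ t), mul_assoc] at h1
        exact (mul_dvd_mul_iff_left h0).mp h1
      have h5 : ¬ (l : ℤ) ^ (α + 1) ∣ x' := by
        intro h
        apply h2
        rw [pow_succ, mul_comm]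
        exact mul_dvd_mul_left _ h
      have := ih t x' y (by omega) h4 h5
      have e : t + 1 - (α + 1) = t - α := by omega
      rw [e]; exact this
    · exact dvd_trans (pow_dvd_pow _ (by omega)) (hp.pow_dvd_of_dvd_mul_left s hx h1)

theorem pow_dvd_sq {l : ℕ} (hl : l.Prime) (s : ℕ) (x : ℤ) (h : (l : ℤ) ^ s ∣ x ^ 2) :
    (l : ℤ) ^ ((s + 1) / 2) ∣ x := by
  by_contra hx
  have hs : s ≠ 0 := by
    rintro rfl
    simp at hx
  have e : (s + 1) / 2 = (s - 1) / 2 + 1 := by omega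
  rw [e] at hx
  have h1 := pow_dvd_right hl ((s - 1) / 2) s x x (by omega) (by rwa [← sq]) hx
  exact hx (dvd_trans (pow_dvd_pow _ (by omega)) h1)

/-- Local classes, with an auxiliary linear form `h`. -/
theorem locA (F : Tf) (l : ℕ) (hl : l.Prime) (k g : ℕ) (h : V) (hk : (l : ℤ) ^ k ∣ F.dl)
    (hg : ¬ (l : ℤ) ^ (g + 1) ∣ F.A h) : F.CL ((l : ℤ) ^ (k - 2 * (g / 2))) (k + 1) := by
  classical
  set m := k - 2 * (g / 2) with hm
  by_cases hall : ∀ u v : V, F.Z u → F.Z v → (l : ℤ) ^ m ∣ F.bf u v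
  · exact ⟨fun _ => 0, fun v hv => ⟨Nat.succ_pos _, fun w hw _ => hall v w hv hw⟩⟩
  push Not at hall
  obtain ⟨u0, u1, hu0, hu1, hu⟩ := hall
  -- the truncated valuation
  let vv : ℤ → ℕ := fun x => Nat.findGreatest (fun j => (l : ℤ) ^ j ∣ x) m
  have vle : ∀ x, vv x ≤ m := fun x => Nat.findGreatest_le _
  have vdv : ∀ x, (l : ℤ) ^ (vv x) ∣ x := by
    intro x
    have h0 : (fun j => (l : ℤ) ^ j ∣ x) 0 := by simp
    exact Nat.findGreatest_spec (P := fun j => (l : ℤ) ^ j ∣ x) (Nat.zero_le m) h0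
  have vnd : ∀ x, vv x < m → ¬ (l : ℤ) ^ (vv x + 1) ∣ x := by
    intro x hx
    exact Nat.findGreatest_is_greatest (P := fun j => (l : ℤ) ^ j ∣ x) (Nat.lt_succ_self _)
      (by omega)
  -- the minimal valuation
  have hex : ∃ w, ∃ u v : V, F.Z u ∧ F.Z v ∧ vv (F.bf u v) = w := ⟨_, u0, u1, hu0, hu1, rfl⟩
  obtain ⟨v0, v1, hv0, hv1, hw⟩ := Nat.find_spec hex
  set w := Nat.find hex with hwdef
  have wmin : ∀ u v : V, F.Z u → F.Z v → (l : ℤ) ^ w ∣ F.bf u v := by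
    intro u v hu hv
    have : w ≤ vv (F.bf u v) := Nat.find_min' hex ⟨u, v, hu, hv, rfl⟩
    exact dvd_trans (pow_dvd_pow _ this) (vdv _)
  have wlt : w < m := by
    have h1 : w ≤ vv (F.bf u0 u1) := Nat.find_min' hex ⟨u0, u1, hu0, hu1, rfl⟩
    rcases Nat.lt_or_ge (vv (F.bf u0 u1)) m with h2 | h2
    · omega
    · exact absurd (dvd_trans (pow_dvd_pow _ h2) (vdv _)) hu
  have hnd : ¬ (l : ℤ) ^ (w + 1) ∣ F.bf v0 v1 := by
    rw [← hw]; exact vnd _ (by rw [hw]; exact wlt)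
  -- the product of the two polar values
  have key : ∀ v : V, F.Z v → (l : ℤ) ^ (w + m) ∣ F.bf v0 v * F.bf v1 v := by
    intro v hv
    have hI : (l : ℤ) ^ (w - g / 2) ∣ dt v0 v1 v := by
      by_cases h2 : g ≤ 2 * w
      · have e1 := g3 F h v0 v1 v hv0.1 hv1.1 hv.1
        have d1 := wmin v0 v1 hv0 hv1
        have d2 := wmin v1 v hv1 hv
        have d3 := wmin v0 v hv0 hv
        have e2 : (l : ℤ) ^ (2 * w) ∣ F.A h * dt v0 v1 v ^ 2 := by
          rw [mul_comm (F.A h), e1]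
          obtain ⟨x, hx⟩ := d1
          obtain ⟨y, hy⟩ := d2
          obtain ⟨z, hz⟩ := d3
          rw [hx, hy, hz]
          refine ⟨2 * ((ev h v * x) * (ev h v0 * y) + (ev h v0 * y) * (ev h v1 * z)
            + (ev h v1 * z) * (ev h v * x)) - (ev h v * x) ^ 2 - (ev h v0 * y) ^ 2
            - (ev h v1 * z) ^ 2, ?_⟩
          rw [pow_mul', sq]; ring
        have e3 := pow_dvd_right hl g (2 * w) _ _ h2 e2 hg
        have e4 := pow_dvd_sq hl _ _ e3
        exact dvd_trans (pow_dvd_pow _ (by omega)) e4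
      · have : w - g / 2 = 0 := by omega
        rw [this]; simp
    have e1 := idC F v0 v1 v hv0.1 hv1.1 hv.1
    have e2 : (l : ℤ) ^ (k + 2 * (w - g / 2)) ∣ F.bf v0 v1 * (F.bf v0 v * F.bf v1 v) := by
      rw [← mul_assoc, e1, pow_add, pow_mul']
      exact mul_dvd_mul hk (pow_dvd_pow_of_dvd hI 2)
    have e3 := pow_dvd_right hl w _ _ _ (by omega) e2 hnd
    exact dvd_trans (pow_dvd_pow _ (by omega)) e3
  refine ⟨fun v => vv (F.bf v0 v), fun v hv => ⟨?_, fun v' hv' heq => ?_⟩⟩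
  · have := vle (F.bf v0 v)
    show vv (F.bf v0 v) < k + 1
    omega
  · simp only at heq
    have cross : ∀ x x' : V, F.Z x → F.Z x' → vv (F.bf v0 x) = vv (F.bf v0 x') →
        (l : ℤ) ^ (w + m) ∣ F.bf v0 x * F.bf v1 x' := by
      intro x x' hx hx' he
      have hα := vle (F.bf v0 x)
      rcases Nat.lt_or_ge (vv (F.bf v0 x)) m with h1 | h1
      · have h2 := vnd (F.bf v0 x') (by omega)
        have h3 := pow_dvd_right hl _ _ _ _ (by omega) (key x' hx') h2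
        have h4 := mul_dvd_mul (vdv (F.bf v0 x)) h3
        rw [← pow_add] at h4
        exact dvd_trans (pow_dvd_pow _ (by omega)) h4
      · have h2 : (l : ℤ) ^ m ∣ F.bf v0 x := dvd_trans (pow_dvd_pow _ h1) (vdv _)
        rw [add_comm, pow_add]
        exact mul_dvd_mul h2 (wmin v1 x' hv1 hx')
    have c1 := cross v v' hv hv' heq
    have c2 := cross v' v hv' hv heq.symm
    have e1 := idA F v0 v1 v v' hv0.1 hv1.1
    have hdd : (l : ℤ) ^ (2 * w + m) ∣ F.dl * dt v0 v1 v * dt v0 v1 v' := by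
      rw [← Int.pow_dvd_pow_iff (n := 2) two_ne_zero]
      have e2 := idC F v0 v1 v hv0.1 hv1.1 hv.1
      have e3 := idC F v0 v1 v' hv0.1 hv1.1 hv'.1
      have e4 : (F.dl * dt v0 v1 v * dt v0 v1 v') ^ 2 =
          (F.bf v0 v1 ^ 2) * ((F.bf v0 v * F.bf v1 v') * (F.bf v0 v' * F.bf v1 v)) := by
        have : (F.dl * dt v0 v1 v * dt v0 v1 v') ^ 2 =
          (F.dl * dt v0 v1 v ^ 2) * (F.dl * dt v0 v1 v' ^ 2) := by ring
        rw [this, ← e2, ← e3]; ring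
      have e5 : ((l : ℤ) ^ (2 * w + m)) ^ 2 =
          ((l : ℤ) ^ w) ^ 2 * ((l : ℤ) ^ (w + m) * (l : ℤ) ^ (w + m)) := by ring
      rw [e4, e5]
      exact mul_dvd_mul (pow_dvd_pow_of_dvd (wmin v0 v1 hv0 hv1) 2) (mul_dvd_mul c1 c2)
    have hs : (l : ℤ) ^ (2 * w + m) ∣ F.bf v0 v1 * (F.bf v0 v * F.bf v1 v' +
        F.bf v1 v * F.bf v0 v') := by
      have : (l : ℤ) ^ (2 * w + m) = (l : ℤ) ^ w * (l : ℤ) ^ (w + m) := by ring
      rw [this]
      refine mul_dvd_mul (wmin v0 v1 hv0 hv1) (dvd_add c1 ?_)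
      rw [mul_comm]; exact c2
    have hn : (l : ℤ) ^ (2 * w + m) ∣ F.bf v0 v1 * (F.bf v0 v1 * F.bf v v') := by
      have : F.bf v0 v1 * (F.bf v0 v1 * F.bf v v') =
          F.bf v0 v1 * (F.bf v0 v * F.bf v1 v' + F.bf v1 v * F.bf v0 v') -
            2 * (F.dl * dt v0 v1 v * dt v0 v1 v') := by linarith [e1]
      rw [this]
      exact dvd_sub hs (Dvd.dvd.mul_left hdd 2)
    have h1 := pow_dvd_right hl w _ _ _ (by omega) hn hnd
    have h2 := pow_dvd_right hl w _ _ _ (by omega) h1 hnd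
    have e : 2 * w + m - w - w = m := by omega
    rw [e] at h2
    exact h2

end Pool.Agent.PP5B
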