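import Pool.Agent.PP5B.LocM

/-! PP5 (b): local classes at any prime. -/

namespace Pool.Agent.PP5B

/-- exponent loss -/
def ls (g : ℕ → ℕ) (l : ℕ) : ℕ := 2 * ((g l + (if l = 2 then 1 else 0)) / 2)

theorem locC {F : Tf} {l k : ℕ} (g : ℕ → ℕ) (hl : l.Prime) (hk : (l : ℤ) ^ k ∣ F.dl)
    (hg : ¬ F.mn ((l : ℤ) ^ (g l + 1))) :
    F.CL ((l : ℤ) ^ (k - ls g l)) (k + 1) := by
  unfold ls
  by_cases h2 : l = 2
  · subst h2
    rw [if_pos rfl]
    exact_mod_cast loc_two F k (g 2) (by exact_mod_cast hk) (by exact_mod_cast hg)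
  · rw [if_neg h2, add_zero]
    exact loc_odd F l hl h2 k (g l) hk hg

end Pool.Agent.PP5B
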