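import Pool.Agent.PP5B.Loc

/-! PP5 (b): local classes at a prime in terms of the minors of the Gram matrix. -/

namespace Pool.Agent.PP5B

/-- if `n` divides every value of the adjoint form, it divides the diagonal minors and twice the
other minors -/
theorem A_all (F : Tf) (n : ℤ) (h : ∀ g : V, n ∣ F.A g) :
    n ∣ 4 * F.b * F.c - F.d ^ 2 ∧ n ∣ 4 * F.a * F.c - F.e ^ 2 ∧ n ∣ 4 * F.a * F.b - F.f ^ 2 ∧
    n ∣ 2 * (F.d * F.e - 2 * F.c * F.f) ∧ n ∣ 2 * (F.d * F.f - 2 * F.b * F.e) ∧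
    n ∣ 2 * (F.e * F.f - 2 * F.a * F.d) := by
  have h1 := h (1, 0, 0)
  have h2 := h (0, 1, 0)
  have h3 := h (0, 0, 1)
  have h4 := h (1, 1, 0)
  have h5 := h (1, 0, 1)
  have h6 := h (0, 1, 1)
  have e1 : F.A (1, 0, 0) = 4 * F.b * F.c - F.d ^ 2 := by simp only [Tf.A]; ring
  have e2 : F.A (0, 1, 0) = 4 * F.a * F.c - F.e ^ 2 := by simp only [Tf.A]; ring
  have e3 : F.A (0, 0, 1) = 4 * F.a * F.b - F.f ^ 2 := by simp only [Tf.A]; ring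
  have e4 : 2 * (F.d * F.e - 2 * F.c * F.f) = F.A (1, 1, 0) - F.A (1, 0, 0) - F.A (0, 1, 0) := by
    simp only [Tf.A]; ring
  have e5 : 2 * (F.d * F.f - 2 * F.b * F.e) = F.A (1, 0, 1) - F.A (1, 0, 0) - F.A (0, 0, 1) := by
    simp only [Tf.A]; ring
  have e6 : 2 * (F.e * F.f - 2 * F.a * F.d) = F.A (0, 1, 1) - F.A (0, 1, 0) - F.A (0, 0, 1) := by
    simp only [Tf.A]; ring
  refine ⟨e1 ▸ h1, e2 ▸ h2, e3 ▸ h3, ?_, ?_, ?_⟩
  · rw [e4]; exact dvd_sub (dvd_sub h4 h1) h2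
  · rw [e5]; exact dvd_sub (dvd_sub h5 h1) h3
  · rw [e6]; exact dvd_sub (dvd_sub h6 h2) h3

/-- Local classes at an odd prime. -/
theorem loc_odd (F : Tf) (l : ℕ) (hl : l.Prime) (h2 : l ≠ 2) (k g : ℕ) (hk : (l : ℤ) ^ k ∣ F.dl)
    (hg : ¬ F.mn ((l : ℤ) ^ (g + 1))) : F.CL ((l : ℤ) ^ (k - 2 * (g / 2))) (k + 1) := by
  by_cases h : ∀ η : V, (l : ℤ) ^ (g + 1) ∣ F.A η
  · exfalso
    obtain ⟨a1, a2, a3, a4, a5, a6⟩ := A_all F _ h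
    have hc : IsCoprime ((l : ℤ) ^ (g + 1)) 2 := by
      apply IsCoprime.pow_left
      have : Nat.Coprime l 2 := (Nat.coprime_primes hl Nat.prime_two).mpr h2
      exact_mod_cast Nat.isCoprime_iff_coprime.mpr this
    exact hg ⟨a1, a2, a3, hc.dvd_of_dvd_mul_left a4, hc.dvd_of_dvd_mul_left a5,
      hc.dvd_of_dvd_mul_left a6⟩
  · push Not at h
    obtain ⟨η, hη⟩ := h
    exact locA F l hl k g η hk hη

/-- Local classes at `2`. -/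
theorem loc_two (F : Tf) (k g : ℕ) (hk : (2 : ℤ) ^ k ∣ F.dl)
    (hg : ¬ F.mn ((2 : ℤ) ^ (g + 1))) : F.CL ((2 : ℤ) ^ (k - 2 * ((g + 1) / 2))) (k + 1) := by
  by_cases h : ∀ η : V, (2 : ℤ) ^ (g + 1 + 1) ∣ F.A η
  · exfalso
    obtain ⟨a1, a2, a3, a4, a5, a6⟩ := A_all F _ h
    have hlt : (2 : ℤ) ^ (g + 1) ∣ 2 ^ (g + 1 + 1) := pow_dvd_pow _ (by omega)
    have hh : ∀ x : ℤ, (2 : ℤ) ^ (g + 1 + 1) ∣ 2 * x → (2 : ℤ) ^ (g + 1) ∣ x := by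
      intro x hx
      rw [pow_succ, mul_comm] at hx
      exact (mul_dvd_mul_iff_left two_ne_zero).mp hx
    exact hg ⟨dvd_trans hlt a1, dvd_trans hlt a2, dvd_trans hlt a3, hh _ a4, hh _ a5, hh _ a6⟩
  · push Not at h
    obtain ⟨η, hη⟩ := h
    exact_mod_cast locA F 2 Nat.prime_two k (g + 1) η (by exact_mod_cast hk)
      (by exact_mod_cast hη)

end Pool.Agent.PP5B
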