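import Pool.Agent.PP5B.Cls
import Pool.Agent.PP5B.GidR

/-! PP5 (b): real vectors in c^perp. -/

namespace Pool.Agent.PP5B

open Matrix

abbrev VR := ℝ × ℝ × ℝ

/-- cross product over the reals -/
def crR (u v : VR) : VR :=
  (u.2.1 * v.2.2 - u.2.2 * v.2.1, u.2.2 * v.1 - u.1 * v.2.2, u.1 * v.2.1 - u.2.1 * v.1)

/-- polar form over the reals -/
def Tf.bR (F : Tf) (v w : VR) : ℝ :=
  2 * F.a * v.1 * w.1 + 2 * F.b * v.2.1 * w.2.1 + 2 * F.c * v.2.2 * w.2.2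
    + F.d * (v.2.1 * w.2.2 + v.2.2 * w.2.1) + F.e * (v.2.2 * w.1 + v.1 * w.2.2)
    + F.f * (v.1 * w.2.1 + v.2.1 * w.1)

theorem AR_cr (F : Tf) (a b : VR) :
    F.AR (crR a b) = F.bR a a * F.bR b b - F.bR a b ^ 2 := by
  simp only [Tf.AR, crR, Tf.bR]; ring

/-- integer matrix over the reals -/
noncomputable def toR (G : Matrix (Fin 4) (Fin 4) ℤ) : Matrix (Fin 4) (Fin 4) ℝ := G.map (fun x : ℤ => (x : ℝ))

noncomputable def cvR (c : Fin 4 → ℤ) : Fin 4 → ℝ := fun i => (c i : ℝ)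

def embR (v : VR) : Fin 4 → ℝ := ![v.1, v.2.1, v.2.2, 0]

variable {G U : Matrix (Fin 4) (Fin 4) ℤ} {c : Fin 4 → ℤ}

theorem toR_mul (A B : Matrix (Fin 4) (Fin 4) ℤ) : toR (A * B) = toR A * toR B := by
  ext i j; simp [toR, Matrix.mul_apply]

theorem toR_tr (A : Matrix (Fin 4) (Fin 4) ℤ) : toR Aᵀ = (toR A)ᵀ := by
  ext i j; simp [toR]

theorem toR_det (A : Matrix (Fin 4) (Fin 4) ℤ) : (toR A).det = (A.det : ℝ) := by
  have := RingHom.map_det (Int.castRingHom ℝ) A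
  simpa [toR, RingHom.mapMatrix_apply] using this.symm

theorem toR_mulVec (A : Matrix (Fin 4) (Fin 4) ℤ) (v : Fin 4 → ℤ) :
    toR A *ᵥ cvR v = cvR (A *ᵥ v) := by
  ext i; simp [toR, cvR, mulVec, dotProduct]

theorem row_R (h : Dat G c U) : cvR c ᵥ* toR U = ![0, 0, 0, 1] := by
  have := h.row
  ext i
  have h2 := congrFun this i
  have h3 : (cvR c ᵥ* toR U) i = ((c ᵥ* U) i : ℝ) := by
    simp [cvR, toR, vecMul, dotProduct]
  rw [h3, h2]
  fin_cases i <;> simp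

theorem detR (h : Dat G c U) : (toR U).det ^ 2 = 1 := by
  rw [toR_det]; exact_mod_cast h.det

theorem pullR (h : Dat G c U) {v : Fin 4 → ℝ} (hv : cvR c ⬝ᵥ v = 0) :
    ∃ w : VR, v = toR U *ᵥ embR w := by
  set y := (toR U).det • ((toR U).adjugate *ᵥ v) with hy
  have e1 : toR U *ᵥ y = v := by
    rw [hy, Matrix.mulVec_smul, Matrix.mulVec_mulVec, Matrix.mul_adjugate, Matrix.smul_mulVec,
      Matrix.one_mulVec, smul_smul, ← sq, detR h, one_smul]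
  have e2 : y 3 = 0 := by
    have : (cvR c ᵥ* toR U) ⬝ᵥ y = 0 := by rw [← dotProduct_mulVec, e1, hv]
    rw [row_R h] at this
    simpa [dotProduct, Fin.sum_univ_succ] using this
  refine ⟨(y 0, y 1, y 2), ?_⟩
  have e3 : embR (y 0, y 1, y 2) = y := by
    ext i; fin_cases i <;> simp [embR, e2]
  rw [e3, e1]

theorem pullR' (h : Dat G c U) (v : Fin 4 → ℝ) :
    ∃ y : Fin 4 → ℝ, v = toR U *ᵥ y ∧ y 3 = cvR c ⬝ᵥ v := by
  set y := (toR U).det • ((toR U).adjugate *ᵥ v) with hy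
  have e1 : toR U *ᵥ y = v := by
    rw [hy, Matrix.mulVec_smul, Matrix.mulVec_mulVec, Matrix.mul_adjugate, Matrix.smul_mulVec,
      Matrix.one_mulVec, smul_smul, ← sq, detR h, one_smul]
  refine ⟨y, e1.symm, ?_⟩
  rw [← e1, dotProduct_mulVec, row_R h]
  simp [dotProduct, Fin.sum_univ_succ]

theorem bR' (h : Dat G c U) (v w : VR) :
    (toR U *ᵥ embR v) ⬝ᵥ (toR G *ᵥ (toR U *ᵥ embR w)) = (TF (Uᵀ * G * U)).bR v w := by
  have e : (toR U *ᵥ embR v) ⬝ᵥ (toR G *ᵥ (toR U *ᵥ embR w))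
      = embR v ⬝ᵥ (toR (Uᵀ * G * U) *ᵥ embR w) := by
    rw [toR_mul, toR_mul, toR_tr, ← Matrix.mulVec_mulVec, ← Matrix.mulVec_mulVec,
      dotProduct_mulVec (embR v), Matrix.vecMul_transpose]
  rw [e]
  set G' := Uᵀ * G * U with hG'
  obtain ⟨a, ha⟩ := h.ev' 0
  obtain ⟨b, hb⟩ := h.ev' 1
  obtain ⟨d, hd⟩ := h.ev' 2
  rw [← hG'] at ha hb hd
  have e1 : G' 0 0 / 2 = a := by rw [ha]; simp
  have e2 : G' 1 1 / 2 = b := by rw [hb]; simp
  have e3 : G' 2 2 / 2 = d := by rw [hd]; simp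
  have s1 := h.sym' 1 0
  have s2 := h.sym' 2 0
  have s3 := h.sym' 2 1
  rw [← hG'] at s1 s2 s3
  simp only [TF, Tf.bR, e1, e2, e3]
  simp [embR, dotProduct, mulVec, Fin.sum_univ_succ, toR]
  rw [ha, hb, hd, s1, s2, s3]
  push_cast
  ring

theorem det_pull (h : Dat G c U) (a b : VR) (v : V) (r : Fin 4 → ℝ) (hr : cvR c ⬝ᵥ r = 1) :
    |(Matrix.of ![toR U *ᵥ embR a, toR U *ᵥ embR b, cvR (U *ᵥ emb v), r]).det|
      = |evR (crR a b) v| := by
  obtain ⟨y, hy, hy3⟩ := pullR' h r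
  rw [hr] at hy3
  have hv : cvR (U *ᵥ emb v) = toR U *ᵥ cvR (emb v) := (toR_mulVec U (emb v)).symm
  have e : Matrix.of ![toR U *ᵥ embR a, toR U *ᵥ embR b, cvR (U *ᵥ emb v), r]
      = Matrix.of ![embR a, embR b, cvR (emb v), y] * (toR U)ᵀ := by
    ext i j
    rw [Matrix.mul_apply]
    fin_cases i
    · simp [mulVec, dotProduct, Fin.sum_univ_succ, embR]; ring
    · simp [mulVec, dotProduct, Fin.sum_univ_succ, embR]; ring
    · simp only [hv]
      simp [mulVec, dotProduct, Fin.sum_univ_succ, cvR, emb]; ring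
    · conv_lhs => rw [hy]
      simp [mulVec, dotProduct, Fin.sum_univ_succ]; ring
  rw [e, Matrix.det_mul, Matrix.det_transpose, det_rows, abs_mul]
  have hd : |(toR U).det| = 1 := by
    have := detR h
    have h2 : |(toR U).det| ^ 2 = 1 := by rw [sq_abs]; exact this
    nlinarith [abs_nonneg (toR U).det]
  rw [hd, mul_one]
  congr 1
  simp [embR, cvR, emb, hy3, evR, crR]
  ring

end Pool.Agent.PP5B
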